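import Pool.Agent.Lib.MP_52ffb9_lc.Sem

/-! The completeness theorem for countable signatures. -/

namespace Pool.Agent.Lib.MP_52ffb9_lc

variable {L : Sig}

/-! ### countability -/

def Tm.enc (a : L.F → ℕ) : Tm L → ℕ
  | .var i => Nat.pair 0 i
  | .app f ts => Nat.pair (a f + 1) (Encodable.encode (List.ofFn fun i ↦ (ts i).enc a))

theorem Tm.enc_inj {a : L.F → ℕ} (ha : Function.Injective a) :
    Function.Injective (Tm.enc a) := by
  intro t
  induction t with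
  | var i =>
    rintro (j | ⟨g, us⟩) h
    · simp only [Tm.enc, Nat.pair_eq_pair, true_and] at h
      rw [h]
    · simp [Tm.enc, Nat.pair_eq_pair] at h
  | app f ts ih =>
    rintro (j | ⟨g, us⟩) h
    · simp [Tm.enc, Nat.pair_eq_pair] at h
    · simp only [Tm.enc, Nat.pair_eq_pair, Nat.add_right_cancel_iff, Encodable.encode_inj] at h
      obtain rfl := ha h.1
      have h2 := List.ofFn_injective h.2
      congr 1
      funext i
      exact ih i (congrFun h2 i)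

instance Tm.countable [Countable L.F] : Countable (Tm L) := by
  obtain ⟨a, ha⟩ := exists_injective_nat L.F
  exact (Tm.enc_inj ha).countable

def Fm.enc (a : Tm L → ℕ) (b : L.R → ℕ) : Fm L → ℕ
  | .bot => Nat.pair 0 0
  | .eq t u => Nat.pair 1 (Nat.pair (a t) (a u))
  | .rel r ts => Nat.pair 2 (Nat.pair (b r) (Encodable.encode (List.ofFn fun i ↦ a (ts i))))
  | .imp φ ψ => Nat.pair 3 (Nat.pair (φ.enc a b) (ψ.enc a b))
  | .all φ => Nat.pair 4 (φ.enc a b)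

theorem Fm.enc_inj {a : Tm L → ℕ} {b : L.R → ℕ} (ha : Function.Injective a)
    (hb : Function.Injective b) : Function.Injective (Fm.enc a b) := by
  intro φ
  induction φ with
  | bot => rintro (_ | _ | _ | _ | _) h <;> simp [Fm.enc, Nat.pair_eq_pair] at h ⊢
  | eq t u =>
    rintro (_ | _ | _ | _ | _) h <;> simp [Fm.enc, Nat.pair_eq_pair] at h ⊢
    exact ⟨ha h.1, ha h.2⟩
  | rel r ts =>
    rintro (_ | _ | ⟨r', us⟩ | _ | _) h
    · simp [Fm.enc, Nat.pair_eq_pair] at h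
    · simp [Fm.enc, Nat.pair_eq_pair] at h
    · simp only [Fm.enc, Nat.pair_eq_pair, Encodable.encode_inj] at h
      obtain rfl := hb h.2.1
      have h2 := List.ofFn_injective h.2.2
      congr 1
      funext i
      exact ha (congrFun h2 i)
    · simp [Fm.enc, Nat.pair_eq_pair] at h
    · simp [Fm.enc, Nat.pair_eq_pair] at h
  | imp φ ψ ih1 ih2 =>
    rintro (_ | _ | _ | _ | _) h <;> simp [Fm.enc, Nat.pair_eq_pair] at h ⊢
    exact ⟨ih1 h.1, ih2 h.2⟩
  | all φ ih =>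
    rintro (_ | _ | _ | _ | _) h <;> simp [Fm.enc, Nat.pair_eq_pair] at h ⊢
    exact ih h

instance Fm.countable [Countable L.F] [Countable L.R] : Countable (Fm L) := by
  obtain ⟨a, ha⟩ := exists_injective_nat (Tm L)
  obtain ⟨b, hb⟩ := exists_injective_nat L.R
  exact (Fm.enc_inj ha hb).countable

/-! ### structural properties of provability -/

theorem Prov.mono {Γ : Set (Fm L)} {φ : Fm L} (h : Prov Γ φ) :
    ∀ {Δ : Set (Fm L)}, Γ ⊆ Δ → Prov Δ φ := by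
  induction h with
  | ax h => exact fun hs ↦ .ax (hs h)
  | impI _ ih => exact fun hs ↦ .impI (ih (Set.insert_subset_insert hs))
  | impE _ _ ih1 ih2 => exact fun hs ↦ .impE (ih1 hs) (ih2 hs)
  | raa _ ih => exact fun hs ↦ .raa (ih (Set.insert_subset_insert hs))
  | allI _ ih => exact fun hs ↦ .allI (ih (Set.image_mono hs))
  | allE t _ ih => exact fun hs ↦ .allE t (ih hs)
  | refl t => exact fun _ ↦ .refl t
  | leib φ _ _ ih1 ih2 => exact fun hs ↦ .leib φ (ih1 hs) (ih2 hs)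

theorem Fm.inst_subst (φ : Fm L) (t : Tm L) (σ : ℕ → Tm L) :
    (φ.inst t).subst σ = (φ.subst (cons (.var 0) fun i ↦ (σ i).tshift)).inst (t.tsub σ) := by
  simp only [Fm.inst, Fm.subst_subst]
  congr 1
  funext i
  cases i with
  | zero => rfl
  | succ i => simp only [cons_succ, Tm.shift_subst_cons, Tm.subst_var, Tm.tsub]

theorem Fm.shift_subst (φ : Fm L) (σ : ℕ → Tm L) :
    φ.shift.subst (cons (.var 0) fun i ↦ (σ i).tshift) = (φ.subst σ).shift := by
  simp only [Fm.shift, Fm.subst_subst, Tm.tsub, cons_succ, Tm.tshift]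

theorem Prov.subst {Γ : Set (Fm L)} {φ : Fm L} (h : Prov Γ φ) :
    ∀ σ : ℕ → Tm L, Prov (Fm.subst σ '' Γ) (φ.subst σ) := by
  induction h with
  | ax h => exact fun σ ↦ .ax ⟨_, h, rfl⟩
  | impI _ ih =>
    intro σ
    have := ih σ
    rw [Set.image_insert_eq] at this
    exact .impI this
  | impE _ _ ih1 ih2 => exact fun σ ↦ .impE (ih1 σ) (ih2 σ)
  | raa _ ih =>
    intro σ
    have := ih σ
    rw [Set.image_insert_eq] at this
    exact .raa this
  | allI _ ih =>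
    intro σ
    refine .allI ?_
    have := ih (cons (.var 0) fun i ↦ (σ i).tshift)
    simp only [Set.image_image, Fm.shift_subst] at this ⊢
    exact this
  | allE t _ ih =>
    intro σ
    rw [Fm.inst_subst]
    exact .allE _ (ih σ)
  | refl t => exact fun _ ↦ .refl _
  | leib φ _ _ ih1 ih2 =>
    intro σ
    have h2 := ih2 σ
    rw [Fm.inst_subst] at h2 ⊢
    exact .leib _ (ih1 σ) h2

theorem Prov.compact {Γ : Set (Fm L)} {φ : Fm L} (h : Prov Γ φ) :
    ∃ Δ : Set (Fm L), Δ.Finite ∧ Δ ⊆ Γ ∧ Prov Δ φ := by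
  induction h with
  | @ax Γ φ h => exact ⟨{φ}, Set.finite_singleton _, Set.singleton_subset_iff.2 h, .ax rfl⟩
  | @impI Γ φ ψ _ ih =>
    obtain ⟨Δ, h1, h2, h3⟩ := ih
    refine ⟨Δ \ {φ}, h1.subset Set.sdiff_subset, fun χ h ↦ (h2 h.1).resolve_left h.2,
      .impI (h3.mono fun χ h ↦ ?_)⟩
    by_cases e : χ = φ
    exacts [Or.inl e, Or.inr ⟨h, e⟩]
  | impE _ _ ih1 ih2 =>
    obtain ⟨Δ, h1, h2, h3⟩ := ih1
    obtain ⟨Δ', h1', h2', h3'⟩ := ih2
    exact ⟨Δ ∪ Δ', h1.union h1', Set.union_subset h2 h2',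
      .impE (h3.mono Set.subset_union_left) (h3'.mono Set.subset_union_right)⟩
  | @raa Γ φ _ ih =>
    obtain ⟨Δ, h1, h2, h3⟩ := ih
    refine ⟨Δ \ {φ.neg}, h1.subset Set.sdiff_subset, fun χ h ↦ (h2 h.1).resolve_left h.2,
      .raa (h3.mono fun χ h ↦ ?_)⟩
    by_cases e : χ = φ.neg
    exacts [Or.inl e, Or.inr ⟨h, e⟩]
  | allI _ ih =>
    obtain ⟨Δ, h1, h2, h3⟩ := ih
    obtain ⟨Δ', h4, h5, rfl⟩ := Set.exists_subset_image_finite_and.1 ⟨Δ, h2, h1, rfl⟩
    exact ⟨Δ', h5, h4, .allI h3⟩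
  | allE t _ ih =>
    obtain ⟨Δ, h1, h2, h3⟩ := ih
    exact ⟨Δ, h1, h2, .allE t h3⟩
  | refl t => exact ⟨∅, Set.finite_empty, Set.empty_subset _, .refl t⟩
  | leib φ _ _ ih1 ih2 =>
    obtain ⟨Δ, h1, h2, h3⟩ := ih1
    obtain ⟨Δ', h1', h2', h3'⟩ := ih2
    exact ⟨Δ ∪ Δ', h1.union h1', Set.union_subset h2 h2',
      .leib φ (h3.mono Set.subset_union_left) (h3'.mono Set.subset_union_right)⟩

theorem Prov.weak {Γ : Set (Fm L)} {φ : Fm L} (h : Prov Γ φ) (ψ : Fm L) :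
    Prov (insert ψ Γ) φ := h.mono (Set.subset_insert _ _)

theorem Prov.hd {Γ : Set (Fm L)} {φ : Fm L} : Prov (insert φ Γ) φ := .ax (Set.mem_insert _ _)

theorem Prov.exfalso {Γ : Set (Fm L)} (h : Prov Γ .bot) (φ : Fm L) : Prov Γ φ :=
  .raa (h.weak _)

theorem Prov.of_neg_imp {Γ : Set (Fm L)} {φ ψ : Fm L} (h : Prov (insert (φ.imp ψ) Γ) .bot) :
    Prov Γ φ ∧ Prov (insert ψ Γ) .bot := by
  have h1 : Prov Γ (φ.imp ψ).neg := .impI h
  constructor
  · refine .raa (.impE (h1.weak _) (.impI (Prov.exfalso ?_ _)))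
    exact .impE (Prov.weak (φ := φ.neg) .hd _) .hd
  · exact .impE (h1.weak _) (.impI (Prov.weak .hd _))

/-- the Henkin step -/
theorem henkin_step {Γ : Set (Fm L)} {φ : Fm L} {x : ℕ} (hΓ : ∀ ψ ∈ Γ, ψ.Bd x)
    (hφ : φ.Bd (x + 1)) (h : Prov (insert ((φ.inst (.var x)).imp φ.all) Γ) .bot) :
    Prov Γ .bot := by
  obtain ⟨h1, h2⟩ := h.of_neg_imp
  refine .impE (.impI h2) (.allI ?_)
  have h3 := h1.subst fun i ↦ if i = x then .var 0 else .var (i + 1)
  have e1 : Fm.subst (fun i ↦ if i = x then (.var 0 : Tm L) else .var (i + 1)) '' Γ =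
      Fm.shift '' Γ :=
    Set.image_congr fun ψ hψ ↦ Fm.subst_congr (hΓ ψ hψ) fun i hi ↦ if_neg hi.ne
  have e2 : (φ.inst (.var x)).subst
      (fun i ↦ if i = x then (.var 0 : Tm L) else .var (i + 1)) = φ := by
    rw [Fm.inst, Fm.subst_subst]
    conv_rhs => rw [← φ.subst_var]
    refine Fm.subst_congr hφ fun i hi ↦ ?_
    cases i with
    | zero => simp [Tm.tsub]
    | succ i => simp only [cons_succ, Tm.tsub]; exact if_neg (by omega)
  rwa [e1, e2] at h3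

theorem exists_henkin [Countable L.F] [Countable L.R] {Γ : Set (Fm L)} (hΓ : ∀ ψ ∈ Γ, ψ.Bd 0)
    (hc : ¬ Prov Γ .bot) : ∃ Δ : Set (Fm L), Γ ⊆ Δ ∧ ¬ Prov Δ .bot ∧
      ∀ φ : Fm L, ∃ t, (φ.inst t).imp φ.all ∈ Δ := by
  have : Nonempty (Fm L) := ⟨.bot⟩
  obtain ⟨e, he⟩ := exists_surjective_nat (Fm L)
  choose b hb using fun φ : Fm L ↦ φ.exists_bd
  let x : ℕ → ℕ := fun n ↦ Nat.rec (b (e 0)) (fun n y ↦ y + 1 + b (e (n + 1))) n
  have hx : ∀ n, b (e n) ≤ x n := by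
    intro n
    cases n with
    | zero => exact le_rfl
    | succ n => exact Nat.le_add_left _ _
  have hmono : StrictMono x := strictMono_nat_of_lt_succ fun n ↦ by
    show x n < x n + 1 + b (e (n + 1))
    omega
  let H : ℕ → Fm L := fun n ↦ ((e n).inst (.var (x n))).imp (e n).all
  have hH : ∀ n, (H n).Bd (x n + 1) := fun n ↦
    ⟨((hb (e n)).mono (hx n)).subst fun i hi ↦ by
      cases i with
      | zero => exact Nat.lt_succ_self _
      | succ i => exact (by omega : i < x n + 1),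
      (hb (e n)).mono (by have := hx n; omega)⟩
  let T : ℕ → Set (Fm L) := fun n ↦ Γ ∪ H '' {k | k < n}
  have hT : ∀ n, ¬ Prov (T n) .bot := by
    intro n
    induction n with
    | zero => simpa [T] using hc
    | succ n ih =>
      intro h
      refine ih (henkin_step (φ := e n) (x := x n) ?_ ((hb _).mono (by have := hx n; omega))
        (h.mono ?_))
      · rintro ψ (h1 | ⟨k, hk, rfl⟩)
        · exact (hΓ ψ h1).mono (Nat.zero_le _)
        · exact (hH k).mono (hmono hk)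
      · rintro ψ (h1 | ⟨k, hk, rfl⟩)
        · exact Or.inr (Or.inl h1)
        · rcases Nat.lt_succ_iff_lt_or_eq.1 hk with h2 | rfl
          · exact Or.inr (Or.inr ⟨k, h2, rfl⟩)
          · exact Or.inl rfl
  refine ⟨Γ ∪ Set.range H, Set.subset_union_left, fun h ↦ ?_, fun φ ↦ ?_⟩
  · obtain ⟨Δ, h1, h2, h3⟩ := h.compact
    have h4 : Δ ⊆ ⋃ n, T n := by
      intro ψ hψ
      rcases h2 hψ with h5 | ⟨k, rfl⟩
      · exact Set.mem_iUnion.2 ⟨0, Or.inl h5⟩
      · exact Set.mem_iUnion.2 ⟨k + 1, Or.inr ⟨k, Nat.lt_succ_self k, rfl⟩⟩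
    have h5 : Monotone T := fun n m hnm ↦
      Set.union_subset_union_right _ (Set.image_mono fun k hk ↦ lt_of_lt_of_le hk hnm)
    obtain ⟨n, hn⟩ := h5.directed_le.exists_mem_subset_of_finset_subset_biUnion
      (s := h1.toFinset) (by simpa using h4)
    exact hT n (h3.mono (by simpa using hn))
  · obtain ⟨n, rfl⟩ := he φ
    exact ⟨_, Or.inr ⟨n, rfl⟩⟩

theorem exists_maximal {Γ : Set (Fm L)} (hc : ¬ Prov Γ .bot) :
    ∃ Δ : Set (Fm L), Γ ⊆ Δ ∧ ¬ Prov Δ .bot ∧ ∀ φ, φ ∉ Δ → Prov (insert φ Δ) .bot := by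
  obtain ⟨Δ, h1, h2⟩ := zorn_subset_nonempty {Δ : Set (Fm L) | ¬ Prov Δ .bot} (by
    intro c hc hch hne
    refine ⟨⋃₀ c, fun h ↦ ?_, fun s hs ↦ Set.subset_sUnion_of_mem hs⟩
    obtain ⟨Δ, h1, h2, h3⟩ := h.compact
    obtain ⟨s, hs, h4⟩ := hch.directedOn.exists_mem_subset_of_finset_subset_biUnion hne
      (f := fun s ↦ s) (s := h1.toFinset) (by simpa [Set.sUnion_eq_biUnion] using h2)
    exact hc hs (h3.mono (by simpa using h4))) Γ hc
  refine ⟨Δ, h1, h2.prop, fun φ hφ ↦ ?_⟩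
  by_contra h
  exact hφ (h2.le_of_ge (y := insert φ Δ) h (Set.subset_insert _ _) (Set.mem_insert _ _))

/-- a maximal consistent Henkin set -/
structure MH (Δ : Set (Fm L)) : Prop where
  con : ¬ Prov Δ .bot
  max : ∀ φ, φ ∉ Δ → Prov (insert φ Δ) .bot
  hen : ∀ φ : Fm L, ∃ t, (φ.inst t).imp φ.all ∈ Δ

namespace MH

variable {Δ : Set (Fm L)} (h : MH Δ)
include h

theorem mem {φ : Fm L} (hp : Prov Δ φ) : φ ∈ Δ := by
  by_contra h1
  exact h.con (.impE (.impI (h.max φ h1)) hp)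

theorem imp_iff (φ ψ : Fm L) : φ.imp ψ ∈ Δ ↔ (φ ∈ Δ → ψ ∈ Δ) := by
  refine ⟨fun h1 h2 ↦ h.mem (.impE (.ax h1) (.ax h2)), fun h1 ↦ ?_⟩
  by_contra h2
  obtain ⟨h3, h4⟩ := (h.max _ h2).of_neg_imp
  exact h.con (.impE (.impI h4) (.ax (h1 (h.mem h3))))

theorem all_iff (φ : Fm L) : φ.all ∈ Δ ↔ ∀ t, φ.inst t ∈ Δ := by
  refine ⟨fun h1 t ↦ h.mem (.allE t (.ax h1)), fun h1 ↦ ?_⟩
  obtain ⟨t, ht⟩ := h.hen φ
  exact h.mem (.impE (.ax ht) (.ax (h1 t)))

theorem cong (φ : Fm L) (n : ℕ) : ∀ σ τ : ℕ → Tm L, (∀ i < n, Fm.eq (σ i) (τ i) ∈ Δ) →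
    (∀ i, n ≤ i → σ i = τ i) → φ.subst σ ∈ Δ → φ.subst τ ∈ Δ := by
  induction n with
  | zero =>
    intro σ τ _ h2 h3
    rwa [← show σ = τ from funext fun i ↦ h2 i (Nat.zero_le _)]
  | succ n ih =>
    intro σ τ h1 h2 h3
    have e : ∀ t : Tm L, (φ.subst fun i ↦ if i = n then .var 0 else (σ i).tshift).inst t =
        φ.subst (Function.update σ n t) := by
      intro t
      rw [Fm.inst, Fm.subst_subst]
      congr 1
      funext i
      by_cases hi : i = n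
      · subst hi; simp [Tm.tsub]
      · simp [hi, Tm.shift_subst_cons]
    have h4 := h.mem (Prov.leib (φ.subst fun i ↦ if i = n then .var 0 else (σ i).tshift)
      (.ax (h1 n (Nat.lt_succ_self n))) (by rw [e, Function.update_eq_self]; exact .ax h3))
    rw [e] at h4
    refine ih _ τ (fun i hi ↦ ?_) (fun i hi ↦ ?_) h4
    · rw [Function.update_of_ne hi.ne]
      exact h1 i (by omega)
    · rcases hi.eq_or_lt with rfl | h5
      · simp
      · rw [Function.update_of_ne h5.ne']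
        exact h2 i h5

theorem refl (t : Tm L) : Fm.eq t t ∈ Δ := h.mem (.refl t)

theorem symm {t u : Tm L} (h1 : Fm.eq t u ∈ Δ) : Fm.eq u t ∈ Δ := by
  have := h.mem (Prov.leib (.eq (.var 0) t.tshift) (.ax h1) (by
    simp only [Fm.inst, Fm.subst, Tm.tsub, cons_zero, Tm.shift_subst_cons, Tm.subst_var]
    exact .refl t))
  simpa only [Fm.inst, Fm.subst, Tm.tsub, cons_zero, Tm.shift_subst_cons, Tm.subst_var] using this

theorem trans {t u v : Tm L} (h1 : Fm.eq t u ∈ Δ) (h2 : Fm.eq u v ∈ Δ) : Fm.eq t v ∈ Δ := by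
  have := h.mem (Prov.leib (.eq t.tshift (.var 0)) (.ax h2) (by
    simp only [Fm.inst, Fm.subst, Tm.tsub, cons_zero, Tm.shift_subst_cons, Tm.subst_var]
    exact .ax h1))
  simpa only [Fm.inst, Fm.subst, Tm.tsub, cons_zero, Tm.shift_subst_cons, Tm.subst_var] using this

theorem rel_cong (r : L.R) {ts us : Fin (L.ra r) → Tm L} (e : ∀ i, Fm.eq (ts i) (us i) ∈ Δ)
    (h1 : Fm.rel r ts ∈ Δ) : Fm.rel r us ∈ Δ := by
  have := h.cong (.rel r fun i ↦ .var i) (L.ra r) (app ts .var) (app us .var)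
    (fun i hi ↦ by simpa [app, hi] using e ⟨i, hi⟩) (fun i hi ↦ by simp [app, hi.not_gt])
    (by simpa [Fm.subst, Tm.tsub] using h1)
  simpa [Fm.subst, Tm.tsub] using this

theorem app_cong (f : L.F) {ts us : Fin (L.fa f) → Tm L} (e : ∀ i, Fm.eq (ts i) (us i) ∈ Δ) :
    Fm.eq (.app f ts) (.app f us) ∈ Δ := by
  have := h.cong (.eq (.var (L.fa f)) (.app f fun i ↦ .var i)) (L.fa f)
    (app ts fun _ ↦ .app f ts) (app us fun _ ↦ .app f ts)
    (fun i hi ↦ by simpa [app, hi] using e ⟨i, hi⟩) (fun i hi ↦ by simp [app, hi.not_gt])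
    (by simpa [Fm.subst, Tm.tsub] using h.refl _)
  simpa [Fm.subst, Tm.tsub] using this

/-- provable equality -/
def setoid : Setoid (Tm L) := ⟨fun t u ↦ Fm.eq t u ∈ Δ, h.refl, h.symm, h.trans⟩

/-- the term model -/
noncomputable def model : Str L (Quotient h.setoid) :=
  ⟨fun f v ↦ Quotient.mk _ (.app f fun i ↦ (v i).out), fun r v ↦ Fm.rel r (fun i ↦ (v i).out) ∈ Δ⟩

theorem out_mk (t : Tm L) : Fm.eq (Quotient.mk h.setoid t).out t ∈ Δ := Quotient.mk_out (s := h.setoid) t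

theorem ev_model (σ : ℕ → Tm L) (t : Tm L) :
    h.model.ev (fun i ↦ Quotient.mk _ (σ i)) t = Quotient.mk _ (t.tsub σ) := by
  induction t with
  | var i => rfl
  | app f ts ih =>
    simp only [Str.ev, ih, Tm.tsub]
    exact Quotient.sound (h.app_cong f fun i ↦ h.out_mk _)

theorem truth (φ : Fm L) : ∀ σ : ℕ → Tm L,
    h.model.Sat (fun i ↦ Quotient.mk _ (σ i)) φ ↔ φ.subst σ ∈ Δ := by
  induction φ with
  | bot => exact fun σ ↦ ⟨False.elim, fun h1 ↦ h.con (.ax h1)⟩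
  | eq t u =>
    intro σ
    simp only [Str.Sat, ev_model, Fm.subst]
    exact Quotient.eq
  | rel r ts =>
    intro σ
    simp only [Str.Sat, ev_model, Fm.subst]
    exact ⟨h.rel_cong r fun i ↦ h.out_mk _, h.rel_cong r fun i ↦ h.symm (h.out_mk _)⟩
  | imp φ ψ ih1 ih2 =>
    intro σ
    simp only [Str.Sat, Fm.subst, ih1, ih2, h.imp_iff]
  | all φ ih =>
    intro σ
    simp only [Str.Sat, Fm.subst, h.all_iff]
    have e : ∀ t : Tm L, (φ.subst (cons (.var 0) fun i ↦ (σ i).tshift)).inst t =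
        φ.subst (cons t σ) := by
      intro t
      rw [Fm.inst, Fm.subst_subst]
      congr 1
      funext i
      cases i with
      | zero => rfl
      | succ i => simp only [cons_succ, Tm.shift_subst_cons, Tm.subst_var]
    simp only [e, ← ih, comp_cons (Quotient.mk h.setoid)]
    exact ⟨fun h1 t ↦ h1 _, fun h1 x ↦ Quotient.inductionOn x h1⟩

end MH

/-- Goedel's completeness theorem -/
theorem completeness [Countable L.F] [Countable L.R] {Γ : Set (Fm L)} {φ : Fm L}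
    (hΓ : ∀ ψ ∈ Γ, ψ.Bd 0) (hφ : φ.Bd 0)
    (h : ∀ (U : Type) (S : Str L U) (ρ : ℕ → U), (∀ ψ ∈ Γ, S.Sat ρ ψ) → S.Sat ρ φ) :
    Prov Γ φ := by
  by_contra h1
  have h2 : ¬ Prov (insert φ.neg Γ) .bot := fun h3 ↦ h1 (.raa h3)
  obtain ⟨Δ, h3, h4, h5⟩ := exists_henkin (by
    rintro ψ (rfl | h3)
    exacts [bd_neg.2 hφ, hΓ ψ h3]) h2
  obtain ⟨Θ, h6, h7, h8⟩ := exists_maximal h4
  have hm : MH Θ := ⟨h7, h8, fun ψ ↦ (h5 ψ).imp fun _ ht ↦ h6 ht⟩
  have h9 : ∀ ψ ∈ insert φ.neg Γ, hm.model.Sat (fun i ↦ Quotient.mk _ (.var i)) ψ := by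
    intro ψ hψ
    rw [hm.truth, Fm.subst_var]
    exact h6 (h3 hψ)
  exact h9 _ (Set.mem_insert _ _) (h _ _ _ fun ψ hψ ↦ h9 ψ (Set.mem_insert_of_mem _ hψ))

end Pool.Agent.Lib.MP_52ffb9_lc
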