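import Mathlib

/-! First-order logic, interpretations, Buss's theory S12, sequential theories and cuts. -/

namespace Pool.Agent.Lib.MP_52ffb9_lc

/-- a signature: function symbols and relation symbols with arities -/
structure Sig where
  F : Type
  R : Type
  fa : F → ℕ
  ra : R → ℕ

/-- terms; variables are de Bruijn indices -/
inductive Tm (L : Sig) : Type
  | var : ℕ → Tm L
  | app : (f : L.F) → (Fin (L.fa f) → Tm L) → Tm L

/-- formulas -/
inductive Fm (L : Sig) : Type
  | bot : Fm L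
  | eq : Tm L → Tm L → Fm L
  | rel : (r : L.R) → (Fin (L.ra r) → Tm L) → Fm L
  | imp : Fm L → Fm L → Fm L
  | all : Fm L → Fm L

variable {L L' L'' : Sig}

/-- simultaneous substitution in a term -/
def Tm.tsub (σ : ℕ → Tm L) : Tm L → Tm L
  | .var i => σ i
  | .app f ts => .app f fun i ↦ (ts i).tsub σ

/-- raise all variables by one -/
def Tm.tshift (t : Tm L) : Tm L := t.tsub fun i ↦ .var (i + 1)

/-- the substitution with `t` for variable `0` and `σ i` for variable `i + 1` -/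
def cons {α : Type} (t : α) (σ : ℕ → α) : ℕ → α
  | 0 => t
  | i + 1 => σ i

/-- simultaneous substitution in a formula -/
def Fm.subst : (ℕ → Tm L) → Fm L → Fm L
  | _, .bot => .bot
  | σ, .eq t u => .eq (t.tsub σ) (u.tsub σ)
  | σ, .rel r ts => .rel r fun i ↦ (ts i).tsub σ
  | σ, .imp φ ψ => .imp (φ.subst σ) (ψ.subst σ)
  | σ, .all φ => .all (φ.subst (cons (.var 0) fun i ↦ (σ i).tshift))

/-- raise all free variables by one -/
def Fm.shift (φ : Fm L) : Fm L := φ.subst fun i ↦ .var (i + 1)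

/-- put `t` for the variable `0` and lower the others -/
def Fm.inst (φ : Fm L) (t : Tm L) : Fm L := φ.subst (cons t .var)

def Fm.neg (φ : Fm L) : Fm L := .imp φ .bot
def Fm.or (φ ψ : Fm L) : Fm L := .imp φ.neg ψ
def Fm.and (φ ψ : Fm L) : Fm L := (Fm.imp φ ψ.neg).neg
def Fm.iff (φ ψ : Fm L) : Fm L := (Fm.imp φ ψ).and (.imp ψ φ)
def Fm.ex (φ : Fm L) : Fm L := φ.neg.all.neg
def conj (l : List (Fm L)) : Fm L := l.foldr Fm.and Fm.bot.neg
def disj (l : List (Fm L)) : Fm L := l.foldr Fm.or Fm.bot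

/-- classical natural deduction with equality -/
inductive Prov : Set (Fm L) → Fm L → Prop
  | ax {Γ φ} : φ ∈ Γ → Prov Γ φ
  | impI {Γ φ ψ} : Prov (insert φ Γ) ψ → Prov Γ (.imp φ ψ)
  | impE {Γ φ ψ} : Prov Γ (.imp φ ψ) → Prov Γ φ → Prov Γ ψ
  | raa {Γ} {φ : Fm L} : Prov (insert φ.neg Γ) .bot → Prov Γ φ
  | allI {Γ} {φ : Fm L} : Prov (Fm.shift '' Γ) φ → Prov Γ φ.all
  | allE {Γ} {φ : Fm L} (t) : Prov Γ φ.all → Prov Γ (φ.inst t)
  | refl {Γ} (t) : Prov Γ (.eq t t)
  | leib {Γ t u} (φ : Fm L) : Prov Γ (.eq t u) → Prov Γ (φ.inst t) → Prov Γ (φ.inst u)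

/-- all variables are below `n` -/
def Tm.TBd (n : ℕ) : Tm L → Prop
  | .var i => i < n
  | .app _ ts => ∀ i, (ts i).TBd n

/-- all free variables are below `n` -/
def Fm.Bd : ℕ → Fm L → Prop
  | _, .bot => True
  | n, .eq t u => t.TBd n ∧ u.TBd n
  | n, .rel _ ts => ∀ i, (ts i).TBd n
  | n, .imp φ ψ => φ.Bd n ∧ ψ.Bd n
  | n, .all φ => φ.Bd (n + 1)

/-- the existential and the universal depth of quantifier alternations -/
def Fm.qa : Fm L → ℕ × ℕ
  | .bot => (1, 1)
  | .eq _ _ => (1, 1)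
  | .rel _ _ => (1, 1)
  | .imp φ ψ => (max φ.qa.2 ψ.qa.1, max φ.qa.1 ψ.qa.2)
  | .all φ => (φ.qa.2 + 1, φ.qa.2)

/-- depth of quantifier alternations -/
def Fm.rho (φ : Fm L) : ℕ := max φ.qa.1 φ.qa.2

/-! ### interpretations -/

/-- a one-dimensional translation: domain (variable `0`), equality (variables `0, 1`), graphs of the
function symbols (value `0`, arguments `1, 2, ...`), relation symbols (arguments `0, 1, ...`) -/
structure Transl (L L' : Sig) where
  dom : Fm L'
  eqv : Fm L'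
  fn : L.F → Fm L'
  rl : L.R → Fm L'

/-- the formula `variable 0 is the value of t`, the variable `i` of `t` becoming `i + 1` -/
def Transl.tm (K : Transl L L') : Tm L → Fm L'
  | .var i => K.eqv.subst (cons (.var 0) fun _ ↦ .var (i + 1))
  | .app f ts => Fm.ex^[L.fa f] ((conj (List.ofFn fun i : Fin (L.fa f) ↦
      (K.dom.subst fun _ ↦ .var i).and
        ((K.tm (ts i)).subst (cons (.var i) fun j ↦ .var (j + 1 + L.fa f))))).and
      ((K.fn f).subst (cons (.var (L.fa f)) .var)))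

/-- there are values of the terms `ts` in the domain which satisfy `θ` -/
def Transl.atom (K : Transl L L') {n : ℕ} (ts : Fin n → Tm L) (θ : Fm L') : Fm L' :=
  Fm.ex^[n] ((conj (List.ofFn fun i : Fin n ↦ (K.dom.subst fun _ ↦ .var i).and
    ((K.tm (ts i)).subst (cons (.var i) fun j ↦ .var (j + n))))).and θ)

/-- the translation of a formula -/
def Transl.fm (K : Transl L L') : Fm L → Fm L'
  | .bot => .bot
  | .eq t u => K.atom ![t, u] K.eqv
  | .rel r ts => K.atom ts (K.rl r)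
  | .imp φ ψ => .imp (K.fm φ) (K.fm ψ)
  | .all φ => .all (.imp K.dom (K.fm φ))

/-- `K` is an interpretation of `U` in `V` -/
def Interprets (K : Transl L L') (U : Set (Fm L)) (V : Set (Fm L')) : Prop :=
  (K.dom.Bd 1 ∧ K.eqv.Bd 2 ∧ (∀ f, (K.fn f).Bd (L.fa f + 1)) ∧ ∀ r, (K.rl r).Bd (L.ra r)) ∧
    ∀ B : Fm L, B.Bd 0 → Prov U B → Prov V (K.fm B)

/-- first `K`, then `K'` -/
def Transl.comp (K : Transl L L') (K' : Transl L' L'') : Transl L L'' :=
  ⟨K'.dom.and (K'.fm K.dom), K'.fm K.eqv, fun f ↦ K'.fm (K.fn f), fun r ↦ K'.fm (K.rl r)⟩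

/-- the composite of `j + 1` copies of `M` -/
def Transl.pow (M : Transl L L) : ℕ → Transl L L
  | 0 => M
  | j + 1 => (M.pow j).comp M

/-- all defining formulas have complexity at most `n` -/
def Transl.RhoLe (K : Transl L L') (n : ℕ) : Prop :=
  K.dom.rho ≤ n ∧ K.eqv.rho ≤ n ∧ (∀ f, (K.fn f).rho ≤ n) ∧ ∀ r, (K.rl r).rho ≤ n

/-! ### sequential theories -/

/-- the signature with one binary relation symbol -/
def LS : Sig := ⟨Empty, Unit, fun _ ↦ 0, fun _ ↦ 2⟩

def mem (i j : ℕ) : Fm LS := .rel () ![.var i, .var j]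

/-- adjunctive set theory -/
def AS : Set (Fm LS) :=
  {(mem 0 1).neg.all.ex,
    ((mem 0 1).iff ((mem 0 3).or (.eq (.var 0) (.var 2)))).all.ex.all.all}

/-- `A` directly interprets adjunctive set theory -/
def Sequential (A : Set (Fm L)) : Prop :=
  ∃ K : Transl LS L, Interprets K AS A ∧ Prov A K.dom.all ∧
    Prov A (K.eqv.iff (.eq (.var 0) (.var 1))).all.all

/-! ### Buss's theory -/

/-- `0`, `S`, `|x|`, `⌊x/2⌋`, `+`, `·`, `#` -/
inductive AF : Type
  | cZ | cS | cL | cH | cA | cM | cP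

def AF.ar : AF → ℕ
  | .cZ => 0
  | .cS => 1
  | .cL => 1
  | .cH => 1
  | .cA => 2
  | .cM => 2
  | .cP => 2

/-- the signature of bounded arithmetic; the relation symbol is `≤` -/
def LA : Sig := ⟨AF, Unit, AF.ar, fun _ ↦ 2⟩

def zero : Tm LA := .app AF.cZ ![]
def succ (t : Tm LA) : Tm LA := .app AF.cS ![t]
def len (t : Tm LA) : Tm LA := .app AF.cL ![t]
def half (t : Tm LA) : Tm LA := .app AF.cH ![t]
def add (t u : Tm LA) : Tm LA := .app AF.cA ![t, u]
def mul (t u : Tm LA) : Tm LA := .app AF.cM ![t, u]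
def smash (t u : Tm LA) : Tm LA := .app AF.cP ![t, u]
def le (t u : Tm LA) : Fm LA := .rel () ![t, u]
def ne (t u : Tm LA) : Fm LA := (Fm.eq t u).neg
def num (i : ℕ) : Tm LA := succ^[i] zero
def dbl (t : Tm LA) : Tm LA := mul (num 2) t

/-- the axioms 1 to 16 of BASIC -/
def basic1 (x y z : Tm LA) : List (Fm LA) :=
  [(le y x).imp (le y (succ x)),
    ne x (succ x),
    le zero x,
    ((le x y).and (ne x y)).iff (le (succ x) y),
    (ne x zero).imp (ne (dbl x) zero),
    (le y x).or (le x y),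
    ((le x y).and (le y x)).imp (.eq x y),
    ((le x y).and (le y z)).imp (le x z),
    .eq (len zero) zero,
    (ne x zero).imp ((Fm.eq (len (dbl x)) (succ (len x))).and
      (.eq (len (succ (dbl x))) (succ (len x)))),
    .eq (len (num 1)) (num 1),
    (le x y).imp (le (len x) (len y)),
    .eq (len (smash x y)) (succ (mul (len x) (len y))),
    .eq (smash zero y) (num 1),
    (ne x zero).imp ((Fm.eq (smash (num 1) (dbl x)) (dbl (smash (num 1) x))).and
      (.eq (smash (num 1) (succ (dbl x))) (dbl (smash (num 1) x)))),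
    .eq (smash x y) (smash y x)]

/-- the axioms 17 to 32 of BASIC -/
def basic2 (x y z w : Tm LA) : List (Fm LA) :=
  [(Fm.eq (len x) (len y)).imp (.eq (smash x z) (smash y z)),
    (Fm.eq (len x) (add (len z) (len w))).imp (.eq (smash x y) (mul (smash z y) (smash w y))),
    le x (add x y),
    ((le x y).and (ne x y)).imp ((le (succ (dbl x)) (dbl y)).and (ne (succ (dbl x)) (dbl y))),
    .eq (add x y) (add y x),
    .eq (add x zero) x,
    .eq (add x (succ y)) (succ (add x y)),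
    .eq (add (add x y) z) (add x (add y z)),
    (le (add x y) (add x z)).iff (le y z),
    .eq (mul x zero) zero,
    .eq (mul x (succ y)) (add (mul x y) x),
    .eq (mul x y) (mul y x),
    .eq (mul x (add y z)) (add (mul x y) (mul x z)),
    (le (num 1) x).imp ((le (mul x y) (mul x z)).iff (le y z)),
    (ne x zero).imp (.eq (len x) (succ (len (half x)))),
    (Fm.eq x (half y)).iff ((Fm.eq (dbl x) y).or (.eq (succ (dbl x)) y))]

/-- the classes `Σ^b_1` (`true`) and `Π^b_1` (`false`) -/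
inductive SP : Bool → Fm LA → Prop
  | sBot (b) : SP b .bot
  | sEq (b t u) : SP b (.eq t u)
  | sLe (b t u) : SP b (le t u)
  | sImp {b φ ψ} : SP (!b) φ → SP b ψ → SP b (.imp φ ψ)
  | sharp {b φ} (t : Tm LA) : SP b φ → SP b ((le (.var 0) (len t).tshift).imp φ).all
  | bdd {φ} (t : Tm LA) : SP false φ → SP false ((le (.var 0) t.tshift).imp φ).all

/-- polynomial induction for `φ` in the variable `0` -/
def pind (φ : Fm LA) : Fm LA :=
  ((φ.inst zero).and
    ((φ.subst (cons (half (.var 0)) fun i ↦ .var (i + 1))).imp φ).all).imp φ.all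

/-- the universal closures of BASIC and of polynomial induction for `Σ^b_1` -/
def S12 : Set (Fm LA) :=
  {ψ | ψ.Bd 0 ∧ ∃ (n : ℕ) (χ : Fm LA), ψ = Fm.all^[n] χ ∧
    (χ ∈ basic1 (.var 0) (.var 1) (.var 2) ∨ χ ∈ basic2 (.var 0) (.var 1) (.var 2) (.var 3) ∨
      ∃ φ, SP true φ ∧ χ = pind φ)}

/-- `A` proves: if variable `1` is in `I`, variable `0` is in the domain of `N` and `θ` holds in
`N`, then variable `0` is in `I` -/
def Closed (A : Set (Fm L)) (N : Transl LA L) (I : Fm L) (θ : Fm LA) : Prop :=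
  Prov A (I.shift.imp (N.dom.imp ((N.fm θ).imp I))).all.all

/-- `I` is an `N`-cut of `A` -/
def IsCut (A : Set (Fm L)) (N : Transl LA L) (I : Fm L) : Prop :=
  I.Bd 1 ∧ Prov A (I.imp N.dom).all ∧ Closed A N I (.eq (.var 0) (.var 1)) ∧
    Prov A (I.and (N.fm (.eq (.var 0) zero))).ex ∧ Closed A N I (.eq (.var 0) (succ (.var 1))) ∧
    Closed A N I (le (.var 0) (.var 1))

/-- `B` holds at the `N`-numeral of `i` -/
def atNum (N : Transl LA L) (B : Fm L) (i : ℕ) : Fm L :=
  (N.dom.and ((N.fm (.eq (.var 0) (num i))).and B)).ex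

end Pool.Agent.Lib.MP_52ffb9_lc
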