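import Pool.Agent.Lib.MP_52ffb9_lc.Std

/-! The counterexample. -/

namespace Pool.Agent.Lib.MP_52ffb9_lc

variable {U : Type}

theorem TA_closed : ∀ φ ∈ TA, φ.Bd 0 := bd_axList

theorem prov_TA {φ : Fm LE} (hφ : φ.Bd 0)
    (h : ∀ (U : Type) (S : Str LE U) (ρ : ℕ → U), Good S → S.Sat ρ φ) : Prov TA φ :=
  completeness TA_closed hφ fun U S ρ hS ↦ h U S ρ ((good_iff S ρ).1 hS)

theorem Prov.good {φ : Fm LE} (h : Prov TA φ) {S : Str LE U} (hS : Good S) (ρ : ℕ → U) :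
    S.Sat ρ φ := h.sound S ρ ((good_iff S ρ).2 hS)

theorem N0_interprets : Interprets N0 S12 TA :=
  interprets_of_real N0_wf TA_closed fun _ S ρ hS ↦
    ⟨S.red, N0_real S, ((good_iff S ρ).1 hS).s12 ρ⟩

/-- the direct interpretation of adjunctive set theory -/
def KS : Transl LS LE :=
  ⟨Fm.bot.neg, .eq (.var 0) (.var 1), fun f ↦ f.elim, fun _ ↦ .rel true fun i ↦ .var i⟩

theorem TA_sequential : Sequential TA := by
  refine ⟨KS, interprets_of_real ⟨by simp [KS], by simp [KS], fun f ↦ Empty.elim f, fun _ i ↦ i.2⟩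
    TA_closed fun U S ρ hS ↦ ?_, prov_TA (by simp [KS]) fun U S ρ _ ↦ by simp [KS],
    prov_TA (by simp [KS]) fun U S ρ _ ↦ by simp [KS]⟩
  have hG := (good_iff S ρ).1 hS
  let S' : Str LS U := ⟨fun f ↦ f.elim, fun _ v ↦ S.rel true v⟩
  have e : ∀ (π : ℕ → U) (i j : ℕ), S'.Sat π (mem i j) ↔ S.mem (π i) (π j) := fun π i j ↦
    iff_of_eq (congrArg (S.rel true) (vec2 (S'.ev π) _ _))
  refine ⟨S', ⟨fun _ ↦ id, fun _ ↦ Iff.rfl, fun f ↦ f.elim, fun _ _ ↦ Iff.rfl⟩, ?_⟩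
  rintro ψ (rfl | rfl)
  · simpa [e, cons] using hG.bot
  · simpa [e, cons] using hG.adj

/-- pass to the coded structure if `D` holds, and stay otherwise -/
def MM (D : Fm LE) : Transl LE LE :=
  ⟨Fm.bot.neg, .eq (.var 0) (.var 1), fun f ↦ .eq (.var 0) (.app f fun i ↦ .var (i + 1)),
    fun r ↦ (D.and (hrel r)).or (D.neg.and (.rel r fun i ↦ .var i))⟩

theorem MM_wf {D : Fm LE} (hD : D.Bd 0) : (MM D).WF :=
  ⟨by simp [MM], by simp [MM], fun f ↦ ⟨Nat.succ_pos _, fun i ↦ Nat.succ_lt_succ i.2⟩,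
    fun r ↦ by
      simp only [MM, bd_or, bd_and, bd_neg]
      exact ⟨⟨hD.mono (Nat.zero_le _), bd_hrel r⟩, hD.mono (Nat.zero_le _), fun i ↦ i.2⟩⟩

theorem MM_pos {D : Fm LE} {S : Str LE U} (h : ∀ ρ, S.Sat ρ D) : (MM D).Real S S.next := by
  refine ⟨fun _ ↦ id, fun _ ↦ Iff.rfl, fun _ _ ↦ Iff.rfl, fun r ρ ↦ ?_⟩
  simp only [MM, Str.sat_or, Str.sat_and, Str.sat_neg, h, true_and, not_true, false_and, or_false,
    sat_hrel]
  refine iff_of_eq (congrArg (S.next.rel r) ?_)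
  funext i
  fin_cases i <;> rfl

theorem MM_neg {D : Fm LE} {S : Str LE U} (h : ∀ ρ, ¬ S.Sat ρ D) : (MM D).Real S S := by
  refine ⟨fun _ ↦ id, fun _ ↦ Iff.rfl, fun _ _ ↦ Iff.rfl, fun r ρ ↦ ?_⟩
  simp only [MM, Str.sat_or, Str.sat_and, Str.sat_neg, h, true_and, not_false_iff, false_and,
    false_or]
  rfl

theorem MM_rho {D : Fm LE} (hD : D.Cx 4 4) : (MM D).RhoLe 4 :=
  ⟨(cx_bot (a := 3) (b := 3)).neg.rho, (cx_eq (a := 3) (b := 3)).rho,
    fun _ ↦ (cx_eq (a := 3) (b := 3)).rho,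
    fun r ↦ (Fm.Cx.or (a := 3) (b := 3) (Fm.Cx.and hD (cx_hrel r))
      ((Fm.Cx.neg hD).and cx_rel)).rho⟩

/-- the axioms hold and the class named `1` meets `I` -/
def Th (I : Fm LE) : Fm LE := (conj axList).and (I.and (el (.var 0) oneE)).ex

theorem bd_Th {I : Fm LE} (hI : I.Bd 1) : (Th I).Bd 0 := by
  simp only [Th, bd_and, bd_ex, bd_el, bd_var, bd_oneE, bd_conj]
  exact ⟨bd_axList, hI, by omega, trivial⟩

theorem sat_Th (I : Fm LE) (S : Str LE U) (ρ : ℕ → U) :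
    S.Sat ρ (Th I) ↔ Good S ∧ ∃ x, S.Sat (cons x ρ) I ∧ S.mem x S.one := by
  simp only [Th, Str.sat_and, Str.sat_conj, Str.sat_ex, Str.sat_el, Str.ev_var, Str.ev_oneE,
    cons_zero, ← good_iff S ρ]
  rfl

theorem cut_std {I : Fm LE} (hI : IsCut TA N0 I) {E : ℕ → ℕ → Prop} (hE : Good (std E))
    (ρ : ℕ → ℕ) (x : ℕ) : (std E).Sat (cons x ρ) I := by
  obtain ⟨h1, -, -, h2, h3, -⟩ := hI
  induction x with
  | zero =>
    have := h2.good hE ρ
    simp only [Str.sat_ex, Str.sat_and, (N0_real _).fm, Str.sat_eq, Str.ev_var, cons_zero,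
      std_zero] at this
    obtain ⟨x, h4, rfl⟩ := this
    exact h4
  | succ x ih =>
    have := Prov.good h3 hE ρ x (x + 1)
    simp only [Str.sat_imp, Str.sat_shift, (N0_real _).fm, (N0_real _).dom, Str.sat_eq,
      Str.ev_var, std_succ, cons, true_imp_iff] at this
    exact ((std E).sat_congr h1 fun i hi ↦ by
      obtain rfl : i = 0 := by omega
      rfl).1 (this ih)

theorem main : ∃ (L : Sig) (A : Set (Fm L)) (N : Transl LA L) (n : ℕ),
    Finite L.F ∧ Finite L.R ∧ A.Finite ∧ (∀ φ ∈ A, φ.Bd 0) ∧ Sequential A ∧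
    Interprets N S12 A ∧ ∀ I : Fm L, IsCut A N I → ∃ (B : Fm L) (M : Transl L L),
      B.Bd 1 ∧ (N.dom.and B).ex.rho ≤ n ∧ Interprets M A A ∧ M.RhoLe n ∧
      Prov A (M.fm (I.and B).ex) ∧ ∀ m k : ℕ, ¬ Prov A (disj ((List.range (m + 1)).flatMap
        fun i ↦ (List.range k).map fun j ↦ (M.pow j).fm (atNum N B i))) := by
  refine ⟨LE, TA, N0, 5, inferInstance, inferInstance, List.finite_toSet axList, TA_closed,
    TA_sequential, N0_interprets, fun I hI ↦ ?_⟩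
  have hT := bd_Th hI.1
  have hD := bd_DD (Th I)
  have hwf := MM_wf hD
  have hB : ((el (.var 0) oneE).or (DD (Th I)).neg).Bd 1 := by
    simp only [bd_or, bd_neg, bd_el, bd_var, bd_oneE]
    exact ⟨⟨by omega, trivial⟩, hD.mono (by omega)⟩
  refine ⟨(el (.var 0) oneE).or (DD (Th I)).neg, MM (DD (Th I)), hB, ?_, ?_, ?_, ?_, ?_⟩
  · exact ((Fm.Cx.and (a := 3) (b := 3) cx_bot.neg
      (cx_el.or (Fm.Cx.neg (cx_DD _)))).ex.mono (by omega) le_rfl).rho
  · refine interprets_of_real hwf TA_closed fun U S ρ hS ↦ ?_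
    have hG := (good_iff S ρ).1 hS
    by_cases h : S.Sat ρ (DD (Th I))
    · refine ⟨S.next, MM_pos fun ρ' ↦ (S.sat_closed hD _ _).1 h, (good_iff _ ρ).2 ?_⟩
      exact ((sat_Th I _ ρ).1 ((hG.sat_DD hT ρ).1 h)).1
    · exact ⟨S, MM_neg fun ρ' h' ↦ h ((S.sat_closed hD _ _).1 h'), hS⟩
  · obtain ⟨h1, h2, h3, h4⟩ := MM_rho (cx_DD (Th I))
    exact ⟨h1.trans (by omega), h2.trans (by omega), fun f ↦ (h3 f).trans (by omega),
      fun r ↦ (h4 r).trans (by omega)⟩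
  · refine prov_TA (hwf.fm (by simp only [bd_ex, bd_and]; exact ⟨hI.1, hB⟩)) fun U S ρ hG ↦ ?_
    by_cases h : S.Sat ρ (DD (Th I))
    · rw [(MM_pos fun ρ' ↦ (S.sat_closed hD _ _).1 h).fm]
      obtain ⟨-, x, h1, h2⟩ := (sat_Th I _ ρ).1 ((hG.sat_DD hT ρ).1 h)
      simp only [Str.sat_ex, Str.sat_and, Str.sat_or, Str.sat_el, Str.ev_var, Str.ev_oneE,
        cons_zero]
      exact ⟨x, h1, Or.inl h2⟩
    · rw [(MM_neg fun ρ' h' ↦ h ((S.sat_closed hD _ _).1 h')).fm]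
      have h1 := hI.2.2.2.1.good hG ρ
      simp only [Str.sat_ex, Str.sat_and, Str.sat_or, Str.sat_neg] at h1 ⊢
      obtain ⟨x, h2, -⟩ := h1
      exact ⟨x, h2, Or.inr fun h' ↦ h ((S.sat_closed hD _ _).1 h')⟩
  · intro m k hp
    obtain ⟨E, hE⟩ := exists_chain (m + 1) (k + 1)
    have h1 : ∀ j ≤ k, ∀ ρ, (std (nx^[j] E)).Sat ρ (DD (Th I)) := by
      intro j hj ρ
      rw [(hE j (by omega)).1.sat_DD hT, std_next, ← Function.iterate_succ_apply' nx, sat_Th]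
      have h2 := hE (j + 1) (by omega)
      exact ⟨h2.1, m + 1, cut_std hI h2.1 ρ _, (h2.2 _).2 rfl⟩
    have h2 : ∀ j ≤ k, (MM (DD (Th I))).Real (std (nx^[j] E)) (std (nx^[j + 1] E)) := by
      intro j hj
      rw [Function.iterate_succ_apply', ← std_next]
      exact MM_pos (h1 j hj)
    have h3 : ∀ j i, i + j ≤ k →
        ((MM (DD (Th I))).pow j).Real (std (nx^[i] E)) (std (nx^[i + j + 1] E)) := by
      intro j
      induction j with
      | zero => exact fun i hi ↦ h2 i hi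
      | succ j ih =>
        intro i hi
        have := (ih (i + 1) (by omega)).comp (h2 i (by omega))
        rwa [show i + 1 + j + 1 = i + (j + 1) + 1 by omega] at this
    have h4 := hp.good (hE 0 (by omega)).1 fun _ ↦ 0
    rw [Str.sat_disj] at h4
    obtain ⟨φ, hφ, h4⟩ := h4
    simp only [List.mem_flatMap, List.mem_map, List.mem_range] at hφ
    obtain ⟨i, hi, j, hj, rfl⟩ := hφ
    rw [(h3 j 0 (by omega)).fm, Nat.zero_add] at h4
    simp only [atNum, Str.sat_ex, Str.sat_and, Str.sat_or, Str.sat_neg, (N0_real _).fm, Str.sat_eq,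
      Str.ev_var, std_num, cons_zero, Str.sat_el, Str.ev_oneE] at h4
    obtain ⟨x, -, rfl, h5 | h5⟩ := h4
    · have := ((hE (j + 1) (by omega)).2 x).1 h5
      omega
    · exact h5 (h1 (j + 1) (by omega) _)

end Pool.Agent.Lib.MP_52ffb9_lc
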