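import Pool.Agent.Lib.MP_52ffb9_lc.Compl

/-! Semantics of direct translations; complexity of formulas. -/

namespace Pool.Agent.Lib.MP_52ffb9_lc

variable {L L' L'' : Sig} {U : Type}

/-- the translation `K` defines the structure `S'` inside `S`, on the same domain -/
structure Transl.Real (K : Transl L L') (S : Str L' U) (S' : Str L U) : Prop where
  dom : ∀ ρ, S.Sat ρ K.dom
  eq : ∀ ρ, S.Sat ρ K.eqv ↔ ρ 0 = ρ 1
  fn : ∀ f ρ, S.Sat ρ (K.fn f) ↔ ρ 0 = S'.fn f fun i ↦ ρ (i + 1)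
  rel : ∀ r ρ, S.Sat ρ (K.rl r) ↔ S'.rel r fun i ↦ ρ i

namespace Transl.Real

variable {K : Transl L L'} {S : Str L' U} {S' : Str L U} (h : K.Real S S')
include h

theorem tm (t : Tm L) : ∀ ρ : ℕ → U, S.Sat ρ (K.tm t) ↔ ρ 0 = S'.ev (fun i ↦ ρ (i + 1)) t := by
  induction t with
  | var i => intro ρ; simp [Transl.tm, S.sat_subst, h.eq]
  | app f ts ih =>
    intro ρ
    simp only [Transl.tm, S.sat_exN, S.sat_and, S.sat_conj_ofFn, S.sat_subst, h.dom, true_and, ih,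
      h.fn, cons_zero, cons_succ, Str.ev_var, app_fin, app_add, app_self]
    constructor
    · rintro ⟨v, h1, h2⟩
      rw [h2, show v = _ from funext h1]
      rfl
    · intro h1
      exact ⟨_, fun _ ↦ rfl, h1⟩

theorem atom {n : ℕ} (ts : Fin n → Tm L) (θ : Fm L') (ρ : ℕ → U) :
    S.Sat ρ (K.atom ts θ) ↔ S.Sat (app (fun i ↦ S'.ev ρ (ts i)) ρ) θ := by
  simp only [Transl.atom, S.sat_exN, S.sat_and, S.sat_conj_ofFn, S.sat_subst, h.dom, true_and,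
    h.tm, cons_zero, cons_succ, Str.ev_var, app_fin, app_add]
  constructor
  · rintro ⟨v, h1, h2⟩
    rwa [show v = _ from funext h1] at h2
  · intro h1
    exact ⟨_, fun _ ↦ rfl, h1⟩

theorem fm (φ : Fm L) : ∀ ρ : ℕ → U, S.Sat ρ (K.fm φ) ↔ S'.Sat ρ φ := by
  induction φ with
  | bot => intro ρ; rfl
  | eq t u =>
    intro ρ
    rw [Transl.fm, h.atom, h.eq]
    rfl
  | rel r ts =>
    intro ρ
    rw [Transl.fm, h.atom, h.rel]
    simp only [app_fin]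
    rfl
  | imp φ ψ ih1 ih2 => intro ρ; simp only [Transl.fm, Str.sat_imp, ih1, ih2]
  | all φ ih => intro ρ; simp only [Transl.fm, Str.sat_imp, Str.sat_all, ih, h.dom, true_imp_iff]

theorem comp {K' : Transl L' L''} {S0 : Str L'' U} (h' : K'.Real S0 S) :
    (K.comp K').Real S0 S' :=
  ⟨fun ρ ↦ by simp only [Transl.comp, Str.sat_and, h'.fm, h'.dom, h.dom, and_self],
    fun ρ ↦ by simp only [Transl.comp, h'.fm, h.eq],
    fun f ρ ↦ by simp only [Transl.comp, h'.fm, h.fn],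
    fun r ρ ↦ by simp only [Transl.comp, h'.fm, h.rel]⟩

end Transl.Real

/-- the free variables of the defining formulas -/
def Transl.WF (K : Transl L L') : Prop :=
  K.dom.Bd 1 ∧ K.eqv.Bd 2 ∧ (∀ f, (K.fn f).Bd (L.fa f + 1)) ∧ ∀ r, (K.rl r).Bd (L.ra r)

namespace Transl.WF

variable {K : Transl L L'} (h : K.WF)
include h

theorem tm {t : Tm L} {n : ℕ} (ht : t.TBd n) : (K.tm t).Bd (n + 1) := by
  induction t with
  | var i =>
    refine Fm.bd_subst _ fun j ↦ ?_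
    cases j with
    | zero => exact Nat.succ_pos n
    | succ j => exact Nat.succ_lt_succ ht
  | app f ts ih =>
    simp only [Transl.tm, bd_exN, bd_and, bd_conj, List.forall_mem_ofFn_iff]
    refine ⟨fun i ↦ ⟨Fm.bd_subst _ fun _ ↦ by simp only [Tm.TBd]; omega,
      (ih i (ht i)).subst fun j hj ↦ ?_⟩, (h.2.2.1 f).subst fun j hj ↦ ?_⟩
    · cases j <;> simp only [cons_zero, cons_succ, Tm.TBd] <;> omega
    · cases j <;> simp only [cons_zero, cons_succ, Tm.TBd] <;> omega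

theorem atom {k n : ℕ} {ts : Fin k → Tm L} (ht : ∀ i, (ts i).TBd n) {θ : Fm L'} (hθ : θ.Bd k) :
    (K.atom ts θ).Bd n := by
  simp only [Transl.atom, bd_exN, bd_and, bd_conj, List.forall_mem_ofFn_iff]
  refine ⟨fun i ↦ ⟨Fm.bd_subst _ fun _ ↦ by simp only [Tm.TBd]; omega,
    (h.tm (ht i)).subst fun j hj ↦ ?_⟩, hθ.mono (by omega)⟩
  cases j <;> simp only [cons_zero, cons_succ, Tm.TBd] <;> omega

theorem fm {φ : Fm L} : ∀ {n : ℕ}, φ.Bd n → (K.fm φ).Bd n := by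
  induction φ with
  | bot => intros; trivial
  | eq t u => exact fun hφ ↦ h.atom (Fin.forall_fin_two.2 ⟨hφ.1, hφ.2⟩) h.2.1
  | rel r ts => exact fun hφ ↦ h.atom hφ (h.2.2.2 r)
  | imp φ ψ ih1 ih2 => exact fun hφ ↦ ⟨ih1 hφ.1, ih2 hφ.2⟩
  | all φ ih => exact fun hφ ↦ ⟨h.1.mono (by omega), ih (n := _ + 1) hφ⟩

end Transl.WF

/-- interpretations from semantic data -/
theorem interprets_of_real [Countable L'.F] [Countable L'.R] {K : Transl L L'} (hK : K.WF)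
    {T : Set (Fm L)} {V : Set (Fm L')} (hV : ∀ ψ ∈ V, ψ.Bd 0)
    (h : ∀ (U : Type) (S : Str L' U) (ρ : ℕ → U), (∀ ψ ∈ V, S.Sat ρ ψ) →
      ∃ S' : Str L U, K.Real S S' ∧ ∀ ψ ∈ T, S'.Sat ρ ψ) : Interprets K T V := by
  refine ⟨hK, fun B hB hp ↦ completeness hV (hK.fm hB) fun U S ρ hS ↦ ?_⟩
  obtain ⟨S', h1, h2⟩ := h U S ρ hS
  exact (h1.fm B ρ).2 (hp.sound S' ρ h2)

/-! ### complexity -/

theorem Fm.qa_subst (φ : Fm L) : ∀ σ : ℕ → Tm L, (φ.subst σ).qa = φ.qa := by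
  induction φ with
  | bot => intros; rfl
  | eq t u => intros; rfl
  | rel r ts => intros; rfl
  | imp φ ψ ih1 ih2 => intros; simp only [Fm.subst, Fm.qa, ih1, ih2]
  | all φ ih => intros; simp only [Fm.subst, Fm.qa, ih]

/-- existential complexity at most `a`, universal complexity at most `b` -/
def Fm.Cx (φ : Fm L) (a b : ℕ) : Prop := φ.qa.1 ≤ a ∧ φ.qa.2 ≤ b

theorem Fm.Cx.mono {φ : Fm L} {a b a' b' : ℕ} (h : φ.Cx a b) (ha : a ≤ a') (hb : b ≤ b') :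
    φ.Cx a' b' := ⟨h.1.trans ha, h.2.trans hb⟩

theorem Fm.Cx.subst {φ : Fm L} {a b : ℕ} (h : φ.Cx a b) (σ : ℕ → Tm L) : (φ.subst σ).Cx a b := by
  simpa only [Fm.Cx, Fm.qa_subst] using h

theorem cx_bot {a b : ℕ} : (Fm.bot : Fm L).Cx (a + 1) (b + 1) := by simp [Fm.Cx, Fm.qa]
theorem cx_eq {a b : ℕ} {t u : Tm L} : (Fm.eq t u).Cx (a + 1) (b + 1) := by simp [Fm.Cx, Fm.qa]
theorem cx_rel {a b : ℕ} {r : L.R} {ts : Fin (L.ra r) → Tm L} :
    (Fm.rel r ts).Cx (a + 1) (b + 1) := by simp [Fm.Cx, Fm.qa]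

theorem Fm.Cx.imp {φ ψ : Fm L} {a b : ℕ} (h : φ.Cx b a) (h' : ψ.Cx a b) : (φ.imp ψ).Cx a b :=
  ⟨max_le h.2 h'.1, max_le h.1 h'.2⟩

theorem Fm.Cx.neg {φ : Fm L} {a b : ℕ} (h : φ.Cx (b + 1) (a + 1)) :
    φ.neg.Cx (a + 1) (b + 1) := h.imp cx_bot

theorem Fm.Cx.and {φ ψ : Fm L} {a b : ℕ} (h : φ.Cx (a + 1) (b + 1)) (h' : ψ.Cx (a + 1) (b + 1)) :
    (φ.and ψ).Cx (a + 1) (b + 1) := (h.imp h'.neg).neg

theorem Fm.Cx.or {φ ψ : Fm L} {a b : ℕ} (h : φ.Cx (a + 1) (b + 1)) (h' : ψ.Cx (a + 1) (b + 1)) :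
    (φ.or ψ).Cx (a + 1) (b + 1) := h.neg.imp h'

theorem Fm.Cx.iff {φ ψ : Fm L} {a : ℕ} (h : φ.Cx (a + 1) (a + 1)) (h' : ψ.Cx (a + 1) (a + 1)) :
    (φ.iff ψ).Cx (a + 1) (a + 1) := (h.imp h').and (h'.imp h)

theorem Fm.Cx.all {φ : Fm L} {a b : ℕ} (h : φ.Cx a b) : φ.all.Cx (b + 1) b := ⟨
  Nat.succ_le_succ h.2, h.2⟩

theorem Fm.Cx.ex {φ : Fm L} {a b : ℕ} (h : φ.Cx (a + 1) (b + 1)) : φ.ex.Cx (a + 1) (a + 2) :=
  h.neg.all.neg

theorem Fm.Cx.exN {φ : Fm L} {a : ℕ} (h : φ.Cx (a + 1) (a + 2)) (n : ℕ) :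
    (Fm.ex^[n] φ).Cx (a + 1) (a + 2) := by
  induction n with
  | zero => exact h
  | succ n ih => rw [Function.iterate_succ_apply']; exact ih.ex

theorem cx_conj {l : List (Fm L)} {a b : ℕ} (h : ∀ φ ∈ l, φ.Cx (a + 1) (b + 1)) :
    (conj l).Cx (a + 1) (b + 1) := by
  induction l with
  | nil => exact cx_bot.neg
  | cons φ l ih =>
    exact (h φ List.mem_cons_self).and (ih fun ψ hψ ↦ h ψ (List.mem_cons_of_mem _ hψ))

theorem Fm.Cx.rho {φ : Fm L} {a : ℕ} (h : φ.Cx a a) : φ.rho ≤ a := max_le h.1 h.2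

end Pool.Agent.Lib.MP_52ffb9_lc
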