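import Pool.Agent.Lib.MP_52ffb9_lc.Defs

/-! Structures, satisfaction, substitution lemmas, soundness. -/

namespace Pool.Agent.Lib.MP_52ffb9_lc

variable {L L' L'' : Sig} {U : Type}

@[simp] theorem cons_zero {α : Type} (t : α) (σ : ℕ → α) : cons t σ 0 = t := rfl
@[simp] theorem cons_succ {α : Type} (t : α) (σ : ℕ → α) (i : ℕ) : cons t σ (i + 1) = σ i := rfl

theorem comp_cons {α β : Type} (g : α → β) (t : α) (σ : ℕ → α) :
    (fun i ↦ g (cons t σ i)) = cons (g t) fun i ↦ g (σ i) := by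
  funext i; cases i <;> rfl

/-! ### substitution algebra -/

theorem Tm.subst_subst (σ τ : ℕ → Tm L) (t : Tm L) :
    (t.tsub σ).tsub τ = t.tsub fun i ↦ (σ i).tsub τ := by
  induction t with
  | var i => rfl
  | app f ts ih => simp only [Tm.tsub, ih]

@[simp] theorem Tm.subst_var (t : Tm L) : t.tsub .var = t := by
  induction t with
  | var i => rfl
  | app f ts ih => simp only [Tm.tsub, ih]

theorem Tm.shift_subst_cons (t u : Tm L) (σ : ℕ → Tm L) :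
    t.tshift.tsub (cons u σ) = t.tsub σ := by
  simp only [Tm.tshift, Tm.subst_subst, Tm.tsub, cons_succ]

theorem Fm.subst_subst (φ : Fm L) : ∀ σ τ : ℕ → Tm L,
    (φ.subst σ).subst τ = φ.subst fun i ↦ (σ i).tsub τ := by
  induction φ with
  | bot => intros; rfl
  | eq t u => intros; simp only [Fm.subst, Tm.subst_subst]
  | rel r ts => intros; simp only [Fm.subst, Tm.subst_subst]
  | imp φ ψ ih1 ih2 => intros; simp only [Fm.subst, ih1, ih2]
  | all φ ih =>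
    intro σ τ
    simp only [Fm.subst, ih]
    congr 2
    funext i
    cases i with
    | zero => rfl
    | succ i =>
      simp only [cons_succ, Tm.shift_subst_cons]
      simp only [Tm.tshift, Tm.subst_subst]

@[simp] theorem Fm.subst_var (φ : Fm L) : φ.subst .var = φ := by
  induction φ with
  | bot => rfl
  | eq t u => simp only [Fm.subst, Tm.subst_var]
  | rel r ts => simp only [Fm.subst, Tm.subst_var]
  | imp φ ψ ih1 ih2 => simp only [Fm.subst, ih1, ih2]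
  | all φ ih =>
    simp only [Fm.subst]
    have : (cons (.var 0) fun i ↦ (Tm.var i : Tm L).tshift) = Tm.var := by
      funext i; cases i <;> rfl
    rw [this, ih]

theorem Tm.TBd.mono {t : Tm L} {n m : ℕ} (h : t.TBd n) (hnm : n ≤ m) : t.TBd m := by
  induction t with
  | var i => exact lt_of_lt_of_le h hnm
  | app f ts ih => exact fun i ↦ ih i (h i)

theorem Fm.Bd.mono {φ : Fm L} : ∀ {n m : ℕ}, φ.Bd n → n ≤ m → φ.Bd m := by
  induction φ with
  | bot => intros; trivial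
  | eq t u => exact fun h hnm ↦ ⟨h.1.mono hnm, h.2.mono hnm⟩
  | rel r ts => exact fun h hnm i ↦ (h i).mono hnm
  | imp φ ψ ih1 ih2 => exact fun h hnm ↦ ⟨ih1 h.1 hnm, ih2 h.2 hnm⟩
  | all φ ih => exact fun h hnm ↦ ih (n := _ + 1) h (Nat.succ_le_succ hnm)

theorem Tm.exists_bd (t : Tm L) : ∃ n, t.TBd n := by
  induction t with
  | var i => exact ⟨i + 1, Nat.lt_succ_self i⟩
  | app f ts ih =>
    choose n hn using ih
    exact ⟨∑ i, n i, fun i ↦ (hn i).mono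
      (Finset.single_le_sum (f := n) (fun _ _ ↦ Nat.zero_le _) (Finset.mem_univ i))⟩

theorem Fm.exists_bd (φ : Fm L) : ∃ n, φ.Bd n := by
  induction φ with
  | bot => exact ⟨0, trivial⟩
  | eq t u =>
    obtain ⟨n, hn⟩ := t.exists_bd
    obtain ⟨m, hm⟩ := u.exists_bd
    exact ⟨n + m, hn.mono (by omega), hm.mono (by omega)⟩
  | rel r ts =>
    choose n hn using fun i ↦ (ts i).exists_bd
    exact ⟨∑ i, n i, fun i ↦ (hn i).mono
      (Finset.single_le_sum (f := n) (fun _ _ ↦ Nat.zero_le _) (Finset.mem_univ i))⟩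
  | imp φ ψ ih1 ih2 =>
    obtain ⟨n, hn⟩ := ih1
    obtain ⟨m, hm⟩ := ih2
    exact ⟨n + m, hn.mono (by omega), hm.mono (by omega)⟩
  | all φ ih =>
    obtain ⟨n, hn⟩ := ih
    exact ⟨n, hn.mono (n := n) (by omega)⟩

theorem Tm.subst_congr {t : Tm L} {n : ℕ} (h : t.TBd n) {σ τ : ℕ → Tm L}
    (e : ∀ i < n, σ i = τ i) : t.tsub σ = t.tsub τ := by
  induction t with
  | var i => exact e i h
  | app f ts ih =>
    simp only [Tm.tsub]
    congr 1
    funext i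
    exact ih i (h i)

theorem Fm.subst_congr {φ : Fm L} : ∀ {n : ℕ}, φ.Bd n → ∀ {σ τ : ℕ → Tm L},
    (∀ i < n, σ i = τ i) → φ.subst σ = φ.subst τ := by
  induction φ with
  | bot => intros; rfl
  | eq t u =>
    intro n h σ τ e
    simp only [Fm.subst, Tm.subst_congr h.1 e, Tm.subst_congr h.2 e]
  | rel r ts =>
    intro n h σ τ e
    simp only [Fm.subst]
    congr 1
    funext i
    exact Tm.subst_congr (h i) e
  | imp φ ψ ih1 ih2 =>
    intro n h σ τ e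
    simp only [Fm.subst, ih1 h.1 e, ih2 h.2 e]
  | all φ ih =>
    intro n h σ τ e
    simp only [Fm.subst]
    congr 1
    refine ih (n := n + 1) h fun i hi ↦ ?_
    cases i with
    | zero => rfl
    | succ i => simp only [cons_succ, e i (by omega)]

theorem Tm.TBd.subst {t : Tm L} {n m : ℕ} (h : t.TBd n) {σ : ℕ → Tm L}
    (e : ∀ i < n, (σ i).TBd m) : (t.tsub σ).TBd m := by
  induction t with
  | var i => exact e i h
  | app f ts ih => exact fun i ↦ ih i (h i)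

theorem Tm.TBd.shift {t : Tm L} {n : ℕ} (h : t.TBd n) : t.tshift.TBd (n + 1) :=
  h.subst fun _ hi ↦ Nat.succ_lt_succ hi

theorem Fm.Bd.subst {φ : Fm L} : ∀ {n m : ℕ}, φ.Bd n → ∀ {σ : ℕ → Tm L},
    (∀ i < n, (σ i).TBd m) → (φ.subst σ).Bd m := by
  induction φ with
  | bot => intros; trivial
  | eq t u => exact fun h _ e ↦ ⟨h.1.subst e, h.2.subst e⟩
  | rel r ts => exact fun h _ e i ↦ (h i).subst e
  | imp φ ψ ih1 ih2 => exact fun h _ e ↦ ⟨ih1 h.1 e, ih2 h.2 e⟩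
  | all φ ih =>
    intro n m h σ e
    refine ih (n := n + 1) (m := m + 1) h fun i hi ↦ ?_
    cases i with
    | zero => exact Nat.succ_pos m
    | succ i => exact (e i (by omega)).shift

theorem Fm.bd_subst (φ : Fm L) {m : ℕ} {σ : ℕ → Tm L} (e : ∀ i, (σ i).TBd m) :
    (φ.subst σ).Bd m := by
  obtain ⟨n, hn⟩ := φ.exists_bd
  exact hn.subst fun i _ ↦ e i

@[simp] theorem bd_neg {φ : Fm L} {n : ℕ} : φ.neg.Bd n ↔ φ.Bd n := by simp [Fm.neg, Fm.Bd]
@[simp] theorem bd_and {φ ψ : Fm L} {n : ℕ} : (φ.and ψ).Bd n ↔ φ.Bd n ∧ ψ.Bd n := by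
  simp [Fm.and, Fm.Bd]
@[simp] theorem bd_or {φ ψ : Fm L} {n : ℕ} : (φ.or ψ).Bd n ↔ φ.Bd n ∧ ψ.Bd n := by
  simp [Fm.or, Fm.Bd]
@[simp] theorem bd_iff {φ ψ : Fm L} {n : ℕ} : (φ.iff ψ).Bd n ↔ φ.Bd n ∧ ψ.Bd n := by
  simp only [Fm.iff, bd_and, Fm.Bd]; tauto
@[simp] theorem bd_ex {φ : Fm L} {n : ℕ} : φ.ex.Bd n ↔ φ.Bd (n + 1) := by simp [Fm.ex, Fm.Bd]

theorem bd_exN {φ : Fm L} (k : ℕ) : ∀ {n : ℕ}, (Fm.ex^[k] φ).Bd n ↔ φ.Bd (n + k) := by
  induction k with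
  | zero => simp
  | succ k ih =>
    intro n
    rw [Function.iterate_succ_apply', bd_ex, ih, show n + 1 + k = n + (k + 1) by omega]

theorem bd_allN {φ : Fm L} (k : ℕ) : ∀ {n : ℕ}, (Fm.all^[k] φ).Bd n ↔ φ.Bd (n + k) := by
  induction k with
  | zero => simp
  | succ k ih =>
    intro n
    rw [Function.iterate_succ_apply', Fm.Bd, ih, show n + 1 + k = n + (k + 1) by omega]

theorem bd_conj {l : List (Fm L)} {n : ℕ} : (conj l).Bd n ↔ ∀ φ ∈ l, φ.Bd n := by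
  induction l with
  | nil => simp [conj, Fm.Bd]
  | cons φ l ih =>
    have : conj (φ :: l) = φ.and (conj l) := rfl
    simp [this, ih]

theorem bd_disj {l : List (Fm L)} {n : ℕ} : (disj l).Bd n ↔ ∀ φ ∈ l, φ.Bd n := by
  induction l with
  | nil => simp [disj, Fm.Bd]
  | cons φ l ih =>
    have : disj (φ :: l) = φ.or (disj l) := rfl
    simp [this, ih]

/-! ### structures -/

structure Str (L : Sig) (U : Type) where
  fn : (f : L.F) → (Fin (L.fa f) → U) → U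
  rel : (r : L.R) → (Fin (L.ra r) → U) → Prop

def Str.ev (S : Str L U) (ρ : ℕ → U) : Tm L → U
  | .var i => ρ i
  | .app f ts => S.fn f fun i ↦ S.ev ρ (ts i)

def Str.Sat (S : Str L U) : (ℕ → U) → Fm L → Prop
  | _, .bot => False
  | ρ, .eq t u => S.ev ρ t = S.ev ρ u
  | ρ, .rel r ts => S.rel r fun i ↦ S.ev ρ (ts i)
  | ρ, .imp φ ψ => S.Sat ρ φ → S.Sat ρ ψ
  | ρ, .all φ => ∀ x, S.Sat (cons x ρ) φ

variable (S : Str L U)

theorem Str.ev_subst (ρ : ℕ → U) (σ : ℕ → Tm L) (t : Tm L) :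
    S.ev ρ (t.tsub σ) = S.ev (fun i ↦ S.ev ρ (σ i)) t := by
  induction t with
  | var i => rfl
  | app f ts ih => simp only [Tm.tsub, Str.ev, ih]

@[simp] theorem Str.ev_shift (ρ : ℕ → U) (x : U) (t : Tm L) :
    S.ev (cons x ρ) t.tshift = S.ev ρ t := by
  rw [Tm.tshift, S.ev_subst]; rfl

theorem Str.sat_subst (φ : Fm L) : ∀ (ρ : ℕ → U) (σ : ℕ → Tm L),
    S.Sat ρ (φ.subst σ) ↔ S.Sat (fun i ↦ S.ev ρ (σ i)) φ := by
  induction φ with
  | bot => intros; rfl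
  | eq t u => intros; simp only [Fm.subst, Str.Sat, S.ev_subst]
  | rel r ts => intros; simp only [Fm.subst, Str.Sat, S.ev_subst]
  | imp φ ψ ih1 ih2 => intros; simp only [Fm.subst, Str.Sat, ih1, ih2]
  | all φ ih =>
    intro ρ σ
    simp only [Fm.subst, Str.Sat, ih, comp_cons (S.ev _), S.ev_shift]
    rfl

@[simp] theorem Str.sat_shift (φ : Fm L) (ρ : ℕ → U) (x : U) :
    S.Sat (cons x ρ) φ.shift ↔ S.Sat ρ φ := by
  rw [Fm.shift, S.sat_subst]; rfl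

@[simp] theorem Str.sat_inst (φ : Fm L) (ρ : ℕ → U) (t : Tm L) :
    S.Sat ρ (φ.inst t) ↔ S.Sat (cons (S.ev ρ t) ρ) φ := by
  rw [Fm.inst, S.sat_subst, comp_cons (S.ev ρ)]; rfl

theorem Str.ev_congr {t : Tm L} {n : ℕ} (h : t.TBd n) {ρ ρ' : ℕ → U} (e : ∀ i < n, ρ i = ρ' i) :
    S.ev ρ t = S.ev ρ' t := by
  induction t with
  | var i => exact e i h
  | app f ts ih =>
    simp only [Str.ev]
    congr 1
    funext i
    exact ih i (h i)

theorem Str.sat_congr {φ : Fm L} : ∀ {n : ℕ}, φ.Bd n → ∀ {ρ ρ' : ℕ → U},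
    (∀ i < n, ρ i = ρ' i) → (S.Sat ρ φ ↔ S.Sat ρ' φ) := by
  induction φ with
  | bot => intros; rfl
  | eq t u =>
    intro n h ρ ρ' e
    simp only [Str.Sat, S.ev_congr h.1 e, S.ev_congr h.2 e]
  | rel r ts =>
    intro n h ρ ρ' e
    simp only [Str.Sat]
    rw [show (fun i ↦ S.ev ρ (ts i)) = fun i ↦ S.ev ρ' (ts i) from
      funext fun i ↦ S.ev_congr (h i) e]
  | imp φ ψ ih1 ih2 =>
    intro n h ρ ρ' e
    simp only [Str.Sat, ih1 h.1 e, ih2 h.2 e]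
  | all φ ih =>
    intro n h ρ ρ' e
    simp only [Str.Sat]
    refine forall_congr' fun x ↦ ih (n := n + 1) h fun i hi ↦ ?_
    cases i with
    | zero => rfl
    | succ i => exact e i (by omega)

theorem Str.sat_closed {φ : Fm L} (h : φ.Bd 0) (ρ ρ' : ℕ → U) : S.Sat ρ φ ↔ S.Sat ρ' φ :=
  S.sat_congr h fun _ hi ↦ absurd hi (Nat.not_lt_zero _)

@[simp] theorem Str.sat_bot (ρ : ℕ → U) : S.Sat ρ .bot ↔ False := Iff.rfl
@[simp] theorem Str.sat_eq (ρ : ℕ → U) (t u : Tm L) :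
    S.Sat ρ (.eq t u) ↔ S.ev ρ t = S.ev ρ u := Iff.rfl
@[simp] theorem Str.sat_imp (ρ : ℕ → U) (φ ψ : Fm L) :
    S.Sat ρ (.imp φ ψ) ↔ (S.Sat ρ φ → S.Sat ρ ψ) := Iff.rfl
@[simp] theorem Str.sat_all (ρ : ℕ → U) (φ : Fm L) :
    S.Sat ρ φ.all ↔ ∀ x, S.Sat (cons x ρ) φ := Iff.rfl
@[simp] theorem Str.sat_neg (ρ : ℕ → U) (φ : Fm L) : S.Sat ρ φ.neg ↔ ¬ S.Sat ρ φ := Iff.rfl
@[simp] theorem Str.sat_or (ρ : ℕ → U) (φ ψ : Fm L) :
    S.Sat ρ (φ.or ψ) ↔ S.Sat ρ φ ∨ S.Sat ρ ψ := by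
  simp only [Fm.or, sat_imp, sat_neg]; tauto
@[simp] theorem Str.sat_and (ρ : ℕ → U) (φ ψ : Fm L) :
    S.Sat ρ (φ.and ψ) ↔ S.Sat ρ φ ∧ S.Sat ρ ψ := by
  simp only [Fm.and, sat_imp, sat_neg]; tauto
@[simp] theorem Str.sat_iff (ρ : ℕ → U) (φ ψ : Fm L) :
    S.Sat ρ (φ.iff ψ) ↔ (S.Sat ρ φ ↔ S.Sat ρ ψ) := by
  simp only [Fm.iff, sat_imp, sat_and]; tauto
@[simp] theorem Str.sat_ex (ρ : ℕ → U) (φ : Fm L) :
    S.Sat ρ φ.ex ↔ ∃ x, S.Sat (cons x ρ) φ := by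
  simp only [Fm.ex, sat_all, sat_neg, not_forall, not_not]
@[simp] theorem Str.ev_var (ρ : ℕ → U) (i : ℕ) : S.ev ρ (.var i) = ρ i := rfl

theorem Str.sat_conj (ρ : ℕ → U) (l : List (Fm L)) :
    S.Sat ρ (conj l) ↔ ∀ φ ∈ l, S.Sat ρ φ := by
  induction l with
  | nil => simp [conj]
  | cons φ l ih =>
    have : conj (φ :: l) = φ.and (conj l) := rfl
    simp [this, ih]

theorem Str.sat_disj (ρ : ℕ → U) (l : List (Fm L)) :
    S.Sat ρ (disj l) ↔ ∃ φ ∈ l, S.Sat ρ φ := by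
  induction l with
  | nil => simp [disj]
  | cons φ l ih =>
    have : disj (φ :: l) = φ.or (disj l) := rfl
    simp [this, ih]

theorem Str.sat_conj_ofFn (ρ : ℕ → U) {n : ℕ} (g : Fin n → Fm L) :
    S.Sat ρ (conj (List.ofFn g)) ↔ ∀ i, S.Sat ρ (g i) := by
  rw [S.sat_conj, List.forall_mem_ofFn_iff]

/-- put a tuple in front of an assignment -/
def app {n : ℕ} (v : Fin n → U) (ρ : ℕ → U) (i : ℕ) : U :=
  if h : i < n then v ⟨i, h⟩ else ρ (i - n)

@[simp] theorem app_fin {n : ℕ} (v : Fin n → U) (ρ : ℕ → U) (i : Fin n) : app v ρ i = v i := by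
  simp [app]

@[simp] theorem app_add {n : ℕ} (v : Fin n → U) (ρ : ℕ → U) (j : ℕ) : app v ρ (j + n) = ρ j := by
  simp [app]

@[simp] theorem app_self {n : ℕ} (v : Fin n → U) (ρ : ℕ → U) : app v ρ n = ρ 0 := by
  simp [app]

theorem app_snoc {n : ℕ} (v : Fin n → U) (x : U) (ρ : ℕ → U) :
    app v (cons x ρ) = app (Fin.snoc (α := fun _ ↦ U) v x) ρ := by
  funext i
  rcases lt_trichotomy i n with h | h | h
  · have : app (Fin.snoc (α := fun _ ↦ U) v x) ρ i = v ⟨i, h⟩ := by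
      have := app_fin (Fin.snoc (α := fun _ ↦ U) v x) ρ (Fin.castSucc ⟨i, h⟩)
      rw [Fin.snoc_castSucc] at this
      exact this
    rw [this]
    exact app_fin v _ ⟨i, h⟩
  · subst h
    have := app_fin (Fin.snoc (α := fun _ ↦ U) v x) ρ (Fin.last i)
    rw [Fin.snoc_last] at this
    rw [app_self]
    exact this.symm
  · obtain ⟨j, rfl⟩ : ∃ j, i = j + 1 + n := ⟨i - n - 1, by omega⟩
    rw [app_add, show j + 1 + n = j + (n + 1) by omega, app_add]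
    rfl

theorem Str.sat_exN (φ : Fm L) (n : ℕ) : ∀ ρ : ℕ → U,
    S.Sat ρ (Fm.ex^[n] φ) ↔ ∃ v : Fin n → U, S.Sat (app v ρ) φ := by
  induction n with
  | zero =>
    intro ρ
    have : ∀ v : Fin 0 → U, app v ρ = ρ := fun v ↦ funext fun i ↦ by simp [app]
    simp [this]
  | succ n ih =>
    intro ρ
    rw [Function.iterate_succ_apply', S.sat_ex]
    simp only [ih, app_snoc]
    constructor
    · rintro ⟨x, v, h⟩
      exact ⟨_, h⟩
    · rintro ⟨v, h⟩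
      exact ⟨v (Fin.last n), Fin.init v, by rwa [Fin.snoc_init_self]⟩

theorem Str.sat_allN (φ : Fm L) (n : ℕ) : ∀ ρ : ℕ → U,
    S.Sat ρ (Fm.all^[n] φ) ↔ ∀ v : Fin n → U, S.Sat (app v ρ) φ := by
  induction n with
  | zero =>
    intro ρ
    have : ∀ v : Fin 0 → U, app v ρ = ρ := fun v ↦ funext fun i ↦ by simp [app]
    simp [this]
  | succ n ih =>
    intro ρ
    rw [Function.iterate_succ_apply', S.sat_all]
    simp only [ih, app_snoc]
    constructor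
    · intro h v
      have := h (v (Fin.last n)) (Fin.init v)
      rwa [Fin.snoc_init_self] at this
    · exact fun h x v ↦ h _

/-- soundness -/
theorem Prov.sound {Γ : Set (Fm L)} {φ : Fm L} (h : Prov Γ φ) :
    ∀ ρ : ℕ → U, (∀ ψ ∈ Γ, S.Sat ρ ψ) → S.Sat ρ φ := by
  induction h with
  | ax h => exact fun ρ hΓ ↦ hΓ _ h
  | impI _ ih =>
    intro ρ hΓ h1
    refine ih ρ ?_
    rintro ψ (rfl | h)
    exacts [h1, hΓ ψ h]
  | impE _ _ ih1 ih2 => exact fun ρ hΓ ↦ ih1 ρ hΓ (ih2 ρ hΓ)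
  | raa _ ih =>
    intro ρ hΓ
    by_contra h1
    refine ih ρ ?_
    rintro ψ (rfl | h)
    exacts [h1, hΓ ψ h]
  | allI _ ih =>
    intro ρ hΓ x
    refine ih _ ?_
    rintro ψ ⟨χ, h, rfl⟩
    exact (S.sat_shift _ _ _).2 (hΓ χ h)
  | allE t _ ih => exact fun ρ hΓ ↦ (S.sat_inst _ _ _).2 (ih ρ hΓ _)
  | refl t => exact fun _ _ ↦ rfl
  | leib φ _ _ ih1 ih2 =>
    intro ρ hΓ
    have h1 : S.ev ρ _ = S.ev ρ _ := ih1 ρ hΓ
    have h2 := ih2 ρ hΓ
    rw [S.sat_inst] at h2 ⊢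
    rwa [← h1]

end Pool.Agent.Lib.MP_52ffb9_lc
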