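import Pool.Agent.Lib.MP_52ffb9_lc.Tarski

/-! Standard models of the theory, nested to any finite depth. -/

namespace Pool.Agent.Lib.MP_52ffb9_lc

def arith : (f : AF) → (Fin f.ar → ℕ) → ℕ
  | .cZ, _ => 0
  | .cS, v => v (0 : Fin 1) + 1
  | .cL, v => (v (0 : Fin 1)).size
  | .cH, v => v (0 : Fin 1) / 2
  | .cA, v => v (0 : Fin 2) + v (1 : Fin 2)
  | .cM, v => v (0 : Fin 2) * v (1 : Fin 2)
  | .cP, v => 2 ^ ((v (0 : Fin 2)).size * (v (1 : Fin 2)).size)

def npair (a b : ℕ) : ℕ := (a + b) * (a + b) + a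

theorem npair_inj {a b c d : ℕ} (h : npair a b = npair c d) : a = c ∧ b = d := by
  unfold npair at h
  have h1 : a + b = c + d := by
    rcases lt_trichotomy (a + b) (c + d) with h2 | h2 | h2
    · nlinarith
    · exact h2
    · nlinarith
  rw [h1] at h
  omega

/-- the natural numbers with a membership relation `E` -/
def std (E : ℕ → ℕ → Prop) : Str LE ℕ :=
  ⟨arith, fun r v ↦ match r with
    | false => v (0 : Fin 2) ≤ v (1 : Fin 2)
    | true => E (v (0 : Fin 2)) (v (1 : Fin 2))⟩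

/-- the relation coded by the class named `0` -/
def nx (E : ℕ → ℕ → Prop) (x y : ℕ) : Prop := E (npair x y) 0

theorem std_next (E : ℕ → ℕ → Prop) : (std E).next = std (nx E) := by
  unfold Str.next std
  congr 1
  funext r v
  cases r <;> rfl

section
variable (E : ℕ → ℕ → Prop) (ρ : ℕ → ℕ)

@[simp] theorem std_zero : (std E).red.ev ρ zero = 0 := rfl
@[simp] theorem std_succ (t : Tm LA) : (std E).red.ev ρ (succ t) = (std E).red.ev ρ t + 1 := rfl
@[simp] theorem std_len (t : Tm LA) : (std E).red.ev ρ (len t) = ((std E).red.ev ρ t).size := rfl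
@[simp] theorem std_half (t : Tm LA) : (std E).red.ev ρ (half t) = (std E).red.ev ρ t / 2 := rfl
@[simp] theorem std_add (t u : Tm LA) :
    (std E).red.ev ρ (add t u) = (std E).red.ev ρ t + (std E).red.ev ρ u := rfl
@[simp] theorem std_mul (t u : Tm LA) :
    (std E).red.ev ρ (mul t u) = (std E).red.ev ρ t * (std E).red.ev ρ u := rfl
@[simp] theorem std_smash (t u : Tm LA) : (std E).red.ev ρ (smash t u) =
    2 ^ (((std E).red.ev ρ t).size * ((std E).red.ev ρ u).size) := rfl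
@[simp] theorem std_le (t u : Tm LA) :
    (std E).red.Sat ρ (le t u) ↔ (std E).red.ev ρ t ≤ (std E).red.ev ρ u := Iff.rfl
@[simp] theorem std_ne (t u : Tm LA) :
    (std E).red.Sat ρ (ne t u) ↔ (std E).red.ev ρ t ≠ (std E).red.ev ρ u := Iff.rfl
@[simp] theorem std_num (i : ℕ) : (std E).red.ev ρ (num i) = i := by
  induction i with
  | zero => rfl
  | succ i ih => rw [num, Function.iterate_succ_apply', std_succ, ← num, ih]
@[simp] theorem std_dbl (t : Tm LA) : (std E).red.ev ρ (dbl t) = 2 * (std E).red.ev ρ t := by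
  rw [dbl, std_mul, std_num]

end

theorem size_two_mul {x : ℕ} (h : x ≠ 0) : (2 * x).size = x.size + 1 := by
  have := Nat.size_bit (b := false) (n := x) (by simpa [Nat.bit] using h)
  simpa [Nat.bit] using this

theorem size_two_mul_succ (x : ℕ) : (2 * x + 1).size = x.size + 1 := by
  have := Nat.size_bit (b := true) (n := x) (by simp [Nat.bit])
  simpa [Nat.bit] using this

theorem size_half {x : ℕ} (h : x ≠ 0) : x.size = (x / 2).size + 1 := by
  rcases Nat.even_or_odd' x with ⟨y, rfl | rfl⟩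
  · rw [size_two_mul (by omega), Nat.mul_div_cancel_left _ two_pos]
  · rw [size_two_mul_succ, show (2 * y + 1) / 2 = y by omega]

theorem std_basic (E : ℕ → ℕ → Prop) : ∀ β ∈ basicL, ∀ ρ, (std E).red.Sat ρ β := by
  intro β hβ ρ
  revert β
  simp only [basicL, basic1, basic2, List.cons_append, List.nil_append, List.forall_mem_cons,
    List.not_mem_nil, false_imp_iff, implies_true, and_true, Str.sat_imp, Str.sat_and, Str.sat_or,
    Str.sat_iff, Str.sat_eq, Str.ev_var, std_zero, std_succ, std_len, std_half, std_add, std_mul,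
    std_smash, std_le, std_ne, std_num, std_dbl]
  generalize ρ 0 = x
  generalize ρ 1 = y
  generalize ρ 2 = z
  generalize ρ 3 = w
  refine ⟨by omega, by omega, by omega, by omega, by omega, by omega, by omega, by omega,
    Nat.size_zero, fun h ↦ ⟨size_two_mul h, size_two_mul_succ x⟩, Nat.size_one,
    Nat.size_le_size, Nat.size_pow, by simp, fun h ↦ ?_, by rw [mul_comm], fun h ↦ by rw [h],
    fun h ↦ by rw [h, add_mul, pow_add], by omega, by omega, by omega, by omega, by omega, by omega,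
    by omega, by omega, by ring, by ring, by ring, fun h ↦ ?_, size_half, by omega⟩
  · simp only [Nat.size_one, one_mul, size_two_mul h, size_two_mul_succ, pow_succ]
    omega
  · exact Nat.mul_le_mul_left_iff h

/-! ### a countable family of classes -/

theorem exists_closed {X ι : Type} [Countable ι] (ar : ι → ℕ) (op : ∀ i, (Fin (ar i) → X) → X)
    (x0 x1 : X) : ∃ f : ℕ → X, f 0 = x0 ∧ f 1 = x1 ∧
      ∀ (i : ι) (p : Fin (ar i) → ℕ), ∃ e, f e = op i fun j ↦ f (p j) := by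
  let L : Sig := ⟨ι, Empty, ar, fun _ ↦ 0⟩
  let S : Str L X := ⟨op, fun _ _ ↦ True⟩
  have : Countable L.F := inferInstanceAs (Countable ι)
  have : Nonempty (Tm L) := ⟨.var 0⟩
  obtain ⟨g, hg⟩ := exists_surjective_nat (Tm L)
  let g' : ℕ → Tm L := cons (.var 0) (cons (.var 1) g)
  refine ⟨fun n ↦ S.ev (cons x0 fun _ ↦ x1) (g' n), rfl, rfl, fun i p ↦ ?_⟩
  obtain ⟨e, he⟩ := hg (.app i fun j ↦ g' (p j))
  exact ⟨e + 2, by simp only [g', cons_succ, he]; rfl⟩

/-- the operations on classes -/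
def opAr : ℕ ⊕ AF ⊕ Fin 8 → ℕ
  | .inl _ => 1
  | .inr (.inl f) => f.ar
  | .inr (.inr _) => 2

def op2 (X0 P Q : Set ℕ) : Fin 8 → Set ℕ :=
  ![∅, {s | s ∈ P → s ∈ Q}, {s | ∀ x, npair x s ∈ P}, {s | ∃ t y, s = npair y (npair y t)},
    {s | ∃ t w y, s = npair y (npair w t) ∧ npair y t ∈ P},
    {s | ∃ b a, a = b ∧ npair a s ∈ P ∧ npair b s ∈ Q},
    {s | ∃ b a, a ≤ b ∧ npair a s ∈ P ∧ npair b s ∈ Q},
    {s | ∃ b a, npair a b ∈ X0 ∧ npair a s ∈ P ∧ npair b s ∈ Q}]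

def op (X0 : Set ℕ) : (i : ℕ ⊕ AF ⊕ Fin 8) → (Fin (opAr i) → Set ℕ) → Set ℕ
  | .inl n, P => {s | s ∈ P (0 : Fin 1) ∨ s = n}
  | .inr (.inl f), P => {s | ∃ t, ∃ v : Fin f.ar → ℕ, s = npair (arith f v) t ∧
      ∀ i, npair (v i) t ∈ P i}
  | .inr (.inr k), P => op2 X0 (P (0 : Fin 2)) (P (1 : Fin 2)) k

theorem exists_step (E' : ℕ → ℕ → Prop) (c : ℕ) :
    ∃ E : ℕ → ℕ → Prop, Good (std E) ∧ nx E = E' ∧ ∀ x, E x 1 ↔ x = c := by
  obtain ⟨f, h0, h1, hf⟩ := exists_closed opAr (op {s | ∃ x y, s = npair x y ∧ E' x y})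
    {s | ∃ x y, s = npair x y ∧ E' x y} {c}
  have h2 : ∀ (k : Fin 8) (p q : ℕ), ∃ e, f e = op2 (f 0) (f p) (f q) k := fun k p q ↦ by
    rw [h0]
    exact hf (.inr (.inr k)) ![p, q]
  refine ⟨fun x e ↦ x ∈ f e, ⟨std_basic _, fun g p ↦ ?_, fun _ _ _ _ ↦ npair_inj, fun u v ↦ ?_,
    fun e s h3 h4 x ↦ ?_, ?_, fun q p ↦ ?_, fun p ↦ ?_, ?_, fun p ↦ ?_, fun q p ↦ ?_,
    fun r q p ↦ ?_⟩, ?_, fun x ↦ by simp only [h1, Set.mem_singleton_iff]⟩
  · obtain ⟨e, he⟩ := hf (.inr (.inl g)) p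
    exact ⟨e, Set.ext_iff.1 he⟩
  · obtain ⟨e, he⟩ := hf (.inl v) ![u]
    exact ⟨e, Set.ext_iff.1 he⟩
  · induction x using Nat.strong_induction_on with
    | _ x ih =>
      rcases Nat.eq_zero_or_pos x with rfl | hx
      · exact h3
      · exact h4 x (ih (x / 2) (by omega))
  · obtain ⟨e, he⟩ := h2 0 0 0
    exact ⟨e, fun s ↦ ((Set.ext_iff.1 he) s).1⟩
  · obtain ⟨e, he⟩ := h2 1 p q
    exact ⟨e, Set.ext_iff.1 he⟩
  · obtain ⟨e, he⟩ := h2 2 p p
    exact ⟨e, Set.ext_iff.1 he⟩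
  · obtain ⟨e, he⟩ := h2 3 0 0
    exact ⟨e, Set.ext_iff.1 he⟩
  · obtain ⟨e, he⟩ := h2 4 p p
    exact ⟨e, Set.ext_iff.1 he⟩
  · obtain ⟨e, he⟩ := h2 5 p q
    exact ⟨e, Set.ext_iff.1 he⟩
  · cases r with
    | false =>
      obtain ⟨e, he⟩ := h2 6 p q
      exact ⟨e, Set.ext_iff.1 he⟩
    | true =>
      obtain ⟨e, he⟩ := h2 7 p q
      exact ⟨e, Set.ext_iff.1 he⟩
  · funext x y
    simp only [nx, h0, Set.mem_ofPred_eq]
    refine propext ⟨?_, fun h ↦ ⟨x, y, rfl, h⟩⟩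
    rintro ⟨x', y', h3, h4⟩
    obtain ⟨rfl, rfl⟩ := npair_inj h3
    exact h4

theorem exists_chain (c k : ℕ) : ∃ E : ℕ → ℕ → Prop,
    ∀ j ≤ k, Good (std (nx^[j] E)) ∧ ∀ x, nx^[j] E x 1 ↔ x = c := by
  induction k with
  | zero =>
    obtain ⟨E, h1, -, h2⟩ := exists_step (fun _ _ ↦ True) c
    exact ⟨E, fun j hj ↦ by obtain rfl := Nat.le_zero.1 hj; exact ⟨h1, h2⟩⟩
  | succ k ih =>
    obtain ⟨E', hE'⟩ := ih
    obtain ⟨E, h1, h3, h2⟩ := exists_step E' c
    refine ⟨E, fun j hj ↦ ?_⟩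
    cases j with
    | zero => exact ⟨h1, h2⟩
    | succ j =>
      rw [Function.iterate_succ_apply, h3]
      exact hE' j (by omega)

end Pool.Agent.Lib.MP_52ffb9_lc
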