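import Pool.Agent.Lib.MP_52ffb9_lc.Theory

/-! Truth in the coded structure is expressed by formulas of bounded complexity. -/

namespace Pool.Agent.Lib.MP_52ffb9_lc

variable {U : Type}

/-- put the variable `i` for all variables -/
def atv (i : ℕ) (φ : Fm LE) : Fm LE := φ.subst fun _ ↦ .var i

theorem sat_atv (S : Str LE U) (ρ : ℕ → U) (i : ℕ) (φ : Fm LE) :
    S.Sat ρ (atv i φ) ↔ S.Sat (fun _ ↦ ρ i) φ := S.sat_subst _ _ _

theorem bd_atv {i n : ℕ} (φ : Fm LE) (h : i < n) : (atv i φ).Bd n := Fm.bd_subst _ fun _ ↦ h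

def Tv : ℕ → Fm LE
  | 0 => cVar 0
  | i + 1 => ((atv 0 (Tv i)).and (cShift 1 0)).ex

def Tt : Tm LE → Fm LE
  | .var i => Tv i
  | .app f ts => Fm.ex^[AF.ar f]
      ((conj (List.ofFn fun i : Fin (AF.ar f) ↦ atv i (Tt (ts i)))).and (cFn f (AF.ar f) id))

def Tf : Fm LE → Fm LE
  | .bot => cBot 0
  | .eq t u => ((atv 0 (Tt t)).and ((atv 1 (Tt u)).and
      (cRel (.eq (.var 0) (.var 1)) 2 0 1))).ex.ex
  | .rel r ts => ((atv 0 (Tt (ts (0 : Fin 2)))).and ((atv 1 (Tt (ts (1 : Fin 2)))).and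
      (cRel (hrel r) 2 0 1))).ex.ex
  | .imp φ ψ => ((atv 0 (Tf φ)).and ((atv 1 (Tf ψ)).and (cImp 2 0 1))).ex.ex
  | .all φ => ((atv 0 (Tf φ)).and (cAll 1 0)).ex

theorem cx_Tv (i : ℕ) : (Tv i).Cx 3 4 := by
  induction i with
  | zero => exact cx_cVar 0
  | succ i ih => exact (Fm.Cx.and (a := 2) (b := 3) (ih.subst _) (cx_cShift _ _)).ex

theorem cx_Tt (t : Tm LE) : (Tt t).Cx 3 4 := by
  induction t with
  | var i => exact cx_Tv i
  | app f ts ih =>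
    refine (Fm.Cx.and (a := 2) (b := 3) (cx_conj ?_) (cx_cFn _ _ _)).exN _
    simp only [List.forall_mem_ofFn_iff]
    exact fun i ↦ (ih i).subst _

theorem cx_Tf (φ : Fm LE) : (Tf φ).Cx 3 4 := by
  induction φ with
  | bot => exact cx_cBot 0
  | eq t u =>
    exact (Fm.Cx.and (a := 2) (b := 3) ((cx_Tt t).subst _)
      (Fm.Cx.and ((cx_Tt u).subst _) (cx_cRel cx_eq _ _ _))).ex.ex
  | rel r ts =>
    exact (Fm.Cx.and (a := 2) (b := 3) ((cx_Tt _).subst _)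
      (Fm.Cx.and ((cx_Tt _).subst _) (cx_cRel (cx_hrel r) _ _ _))).ex.ex
  | imp φ ψ ih1 ih2 =>
    exact (Fm.Cx.and (a := 2) (b := 3) (ih1.subst _)
      (Fm.Cx.and (ih2.subst _) (cx_cImp _ _ _))).ex.ex
  | all φ ih => exact (Fm.Cx.and (a := 2) (b := 3) (ih.subst _) (cx_cAll _ _)).ex

/-- the code of the first `n` values of an assignment -/
def Str.code (S : Str LE U) : ℕ → (ℕ → U) → U → U
  | 0, _, t => t
  | n + 1, ρ, t => S.pair (ρ 0) (S.code n (fun i ↦ ρ (i + 1)) t)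

namespace Good

variable {S : Str LE U} (h : Good S)
include h

theorem pair_eq {a b c d : U} : S.pair a b = S.pair c d ↔ a = c ∧ b = d :=
  ⟨h.inj a b c d, fun ⟨h1, h2⟩ ↦ by rw [h1, h2]⟩

theorem rep_Tv (i : ℕ) : ∀ (π : ℕ → U), S.Sat π (Tv i) → ∀ n ρ t y, i < n →
    (S.mem (S.pair y (S.code n ρ t)) (π 0) ↔ y = ρ i) := by
  induction i with
  | zero =>
    intro π h1 n ρ t y hn
    obtain ⟨n, rfl⟩ : ∃ m, n = m + 1 := ⟨n - 1, by omega⟩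
    rw [Tv, sat_cVar] at h1
    simp only [h1, Str.code, h.pair_eq]
    exact ⟨fun ⟨_, _, h2, h3, _⟩ ↦ h2.trans h3.symm, fun h2 ↦ ⟨_, _, h2, rfl, rfl⟩⟩
  | succ i ih =>
    intro π h1 n ρ t y hn
    obtain ⟨n, rfl⟩ : ∃ m, n = m + 1 := ⟨n - 1, by omega⟩
    simp only [Tv, Str.sat_ex, Str.sat_and, sat_atv, sat_cShift, cons_zero, cons_succ] at h1
    obtain ⟨p, h2, h3⟩ := h1
    have h4 := ih _ h2 n (fun i ↦ ρ (i + 1)) t y (by omega)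
    simp only [h3, Str.code, h.pair_eq, ← h4]
    constructor
    · rintro ⟨_, _, _, ⟨rfl, rfl, rfl⟩, h5⟩
      exact h5
    · exact fun h5 ↦ ⟨_, _, _, ⟨rfl, rfl, rfl⟩, h5⟩

theorem rep_Tt (u : Tm LE) : ∀ (π : ℕ → U), S.Sat π (Tt u) → ∀ n ρ t y, u.TBd n →
    (S.mem (S.pair y (S.code n ρ t)) (π 0) ↔ y = S.ev ρ u) := by
  induction u with
  | var i => exact h.rep_Tv i
  | app f ts ih =>
    intro π h1 n ρ t y hn
    simp only [Tt, Str.sat_exN, Str.sat_and, Str.sat_conj_ofFn, sat_atv, sat_cFn, app_fin,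
      app_self, id] at h1
    obtain ⟨p, h2, h3⟩ := h1
    have h4 := fun i y ↦ ih i _ (h2 i) n ρ t y (hn i)
    simp only [h3, h.pair_eq]
    constructor
    · rintro ⟨_, v, ⟨rfl, rfl⟩, h5⟩
      exact congrArg (S.fn f) (funext fun i ↦ (h4 i _).1 (h5 i))
    · rintro rfl
      exact ⟨_, _, ⟨rfl, rfl⟩, fun i ↦ (h4 i _).2 rfl⟩

theorem rep_Tf (φ : Fm LE) : ∀ (π : ℕ → U), S.Sat π (Tf φ) → ∀ n ρ t, φ.Bd n →
    (S.mem (S.code n ρ t) (π 0) ↔ S.next.Sat ρ φ) := by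
  induction φ with
  | bot =>
    intro π h1 n ρ t _
    rw [Tf, sat_cBot] at h1
    exact ⟨h1 _, False.elim⟩
  | eq u w =>
    intro π h1 n ρ t hn
    simp only [Tf, Str.sat_ex, Str.sat_and, sat_atv, sat_cRel, Str.sat_eq, Str.ev_var, cons] at h1
    obtain ⟨q, p, h2, h3, h4⟩ := h1
    simp only [h4, h.rep_Tt u _ h2 n ρ t _ hn.1, h.rep_Tt w _ h3 n ρ t _ hn.2, Str.sat_eq,
      Str.ev_next]
    constructor
    · rintro ⟨_, _, h5, rfl, rfl⟩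
      exact h5
    · exact fun h5 ↦ ⟨_, _, h5, rfl, rfl⟩
  | rel r ts =>
    intro π h1 n ρ t hn
    simp only [Tf, Str.sat_ex, Str.sat_and, sat_atv, sat_cRel, sat_hrel, cons] at h1
    obtain ⟨q, p, h2, h3, h4⟩ := h1
    have e : (fun i ↦ S.next.ev ρ (ts i)) = ![S.ev ρ (ts (0 : Fin 2)), S.ev ρ (ts (1 : Fin 2))] := by
      funext i
      rw [Str.ev_next]
      fin_cases i <;> rfl
    simp only [h4, h.rep_Tt _ _ h2 n ρ t _ (hn _), h.rep_Tt _ _ h3 n ρ t _ (hn _), Str.Sat, e]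
    constructor
    · rintro ⟨_, _, h5, rfl, rfl⟩
      exact h5
    · exact fun h5 ↦ ⟨_, _, h5, rfl, rfl⟩
  | imp φ ψ ih1 ih2 =>
    intro π h1 n ρ t hn
    simp only [Tf, Str.sat_ex, Str.sat_and, sat_atv, sat_cImp, cons] at h1
    obtain ⟨q, p, h2, h3, h4⟩ := h1
    simp only [h4, ih1 _ h2 n ρ t hn.1, ih2 _ h3 n ρ t hn.2, Str.sat_imp]
  | all φ ih =>
    intro π h1 n ρ t hn
    simp only [Tf, Str.sat_ex, Str.sat_and, sat_atv, sat_cAll, cons] at h1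
    obtain ⟨p, h2, h3⟩ := h1
    rw [h3, Str.sat_all]
    exact forall_congr' fun x ↦ ih _ h2 (n + 1) (cons x ρ) t hn

theorem ex_Tv (i : ℕ) : ∃ e, ∀ π : ℕ → U, π 0 = e → S.Sat π (Tv i) := by
  induction i with
  | zero =>
    obtain ⟨e, he⟩ := h.var
    exact ⟨e, fun π hπ ↦ by rw [Tv, sat_cVar, hπ]; exact he⟩
  | succ i ih =>
    obtain ⟨p, hp⟩ := ih
    obtain ⟨e, he⟩ := h.shift p
    refine ⟨e, fun π hπ ↦ ?_⟩
    simp only [Tv, Str.sat_ex, Str.sat_and, sat_atv, sat_cShift, cons, hπ]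
    exact ⟨p, hp _ rfl, he⟩

theorem ex_Tt (u : Tm LE) : ∃ e, ∀ π : ℕ → U, π 0 = e → S.Sat π (Tt u) := by
  induction u with
  | var i => exact h.ex_Tv i
  | app f ts ih =>
    choose p hp using ih
    obtain ⟨e, he⟩ := h.fn f p
    refine ⟨e, fun π hπ ↦ ?_⟩
    simp only [Tt, Str.sat_exN, Str.sat_and, Str.sat_conj_ofFn, sat_atv, sat_cFn, app_fin,
      app_self, id, hπ]
    exact ⟨p, fun i ↦ hp i _ rfl, he⟩

theorem ex_Tf (φ : Fm LE) : ∃ e, ∀ π : ℕ → U, π 0 = e → S.Sat π (Tf φ) := by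
  induction φ with
  | bot =>
    obtain ⟨e, he⟩ := h.bot
    exact ⟨e, fun π hπ ↦ by rw [Tf, sat_cBot, hπ]; exact he⟩
  | eq u w =>
    obtain ⟨p, hp⟩ := h.ex_Tt u
    obtain ⟨q, hq⟩ := h.ex_Tt w
    obtain ⟨e, he⟩ := h.eq q p
    refine ⟨e, fun π hπ ↦ ?_⟩
    simp only [Tf, Str.sat_ex, Str.sat_and, sat_atv, sat_cRel, Str.sat_eq, Str.ev_var, cons, hπ]
    exact ⟨q, p, hp _ rfl, hq _ rfl, he⟩
  | rel r ts =>
    obtain ⟨p, hp⟩ := h.ex_Tt (ts (0 : Fin 2))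
    obtain ⟨q, hq⟩ := h.ex_Tt (ts (1 : Fin 2))
    obtain ⟨e, he⟩ := h.rel r q p
    refine ⟨e, fun π hπ ↦ ?_⟩
    simp only [Tf, Str.sat_ex, Str.sat_and, sat_atv, sat_cRel, sat_hrel, cons, hπ]
    exact ⟨q, p, hp _ rfl, hq _ rfl, he⟩
  | imp φ ψ ih1 ih2 =>
    obtain ⟨p, hp⟩ := ih1
    obtain ⟨q, hq⟩ := ih2
    obtain ⟨e, he⟩ := h.imp q p
    refine ⟨e, fun π hπ ↦ ?_⟩
    simp only [Tf, Str.sat_ex, Str.sat_and, sat_atv, sat_cImp, cons, hπ]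
    exact ⟨q, p, hp _ rfl, hq _ rfl, he⟩
  | all φ ih =>
    obtain ⟨p, hp⟩ := ih
    obtain ⟨e, he⟩ := h.all p
    refine ⟨e, fun π hπ ↦ ?_⟩
    simp only [Tf, Str.sat_ex, Str.sat_and, sat_atv, sat_cAll, cons, hπ]
    exact ⟨p, hp _ rfl, he⟩

/-- comprehension for the formulas of the coded structure -/
theorem compr (φ : Fm LE) : ∃ e, ∀ n ρ t, φ.Bd n →
    (S.mem (S.code n ρ t) e ↔ S.next.Sat ρ φ) := by
  obtain ⟨e, he⟩ := h.ex_Tf φ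
  exact ⟨e, h.rep_Tf φ (fun _ ↦ e) (he _ rfl)⟩

theorem pind (φ : Fm LA) (ρ : ℕ → U) : S.red.Sat ρ (pind φ) := by
  obtain ⟨e, he⟩ := h.compr (N0.fm φ)
  obtain ⟨n, hn⟩ := (N0.fm φ).exists_bd
  have h1 : ∀ x, S.mem (S.pair x (S.code n ρ S.z)) e ↔ S.red.Sat (cons x ρ) φ := fun x ↦
    (he (n + 1) (cons x ρ) S.z (hn.mono (by omega))).trans ((N0_real S.next).fm φ _)
  have e1 : S.red.ev ρ zero = S.z := congrArg (S.fn AF.cZ) (vec0 (S.red.ev ρ))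
  have e2 : ∀ x, (fun i ↦ S.red.ev (cons x ρ) (cons (half (.var 0)) (fun i ↦ .var (i + 1)) i)) =
      cons (S.hf x) ρ := by
    intro x
    funext i
    cases i with
    | zero => exact congrArg (S.fn AF.cH) (vec1 (S.red.ev (cons x ρ)) _)
    | succ i => rfl
  simp only [MP_52ffb9_lc.pind, Str.sat_imp, Str.sat_and, Str.sat_all, Str.sat_inst,
    Str.sat_subst, e1, e2, ← h1]
  exact fun ⟨h2, h3⟩ ↦ h.ind e _ h2 h3

theorem s12 (ρ : ℕ → U) : ∀ ψ ∈ S12, S.red.Sat ρ ψ := by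
  rintro ψ ⟨-, n, χ, rfl, h1⟩
  rw [Str.sat_allN]
  intro v
  rcases h1 with h1 | h1 | ⟨φ, -, rfl⟩
  · exact h.basic χ (List.mem_append_left _ h1) _
  · exact h.basic χ (List.mem_append_right _ h1) _
  · exact h.pind φ _

end Good

/-- a sentence of bounded complexity saying that `Θ` holds in the coded structure -/
def DD (Θ : Fm LE) : Fm LE := ((atv 0 (Tf Θ)).and (el zE (.var 0))).ex

theorem bd_DD (Θ : Fm LE) : (DD Θ).Bd 0 := by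
  simp only [DD, bd_ex, bd_and, bd_el, bd_zE, bd_var, true_and]
  exact ⟨bd_atv _ (by omega), by omega⟩

theorem cx_DD (Θ : Fm LE) : (DD Θ).Cx 4 4 :=
  (Fm.Cx.and (a := 2) (b := 3) ((cx_Tf Θ).subst _) cx_el).ex.mono (by omega) le_rfl

theorem Good.sat_DD {S : Str LE U} (h : Good S) {Θ : Fm LE} (hΘ : Θ.Bd 0) (ρ : ℕ → U) :
    S.Sat ρ (DD Θ) ↔ S.next.Sat ρ Θ := by
  simp only [DD, Str.sat_ex, Str.sat_and, sat_atv, Str.sat_el, Str.ev_zE, Str.ev_var, cons_zero]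
  constructor
  · rintro ⟨e, h1, h2⟩
    exact (h.rep_Tf Θ _ h1 0 ρ S.z hΘ).1 h2
  · intro h1
    obtain ⟨e, he⟩ := h.ex_Tf Θ
    exact ⟨e, he _ rfl, (h.rep_Tf Θ (fun _ ↦ e) (he _ rfl) 0 ρ S.z hΘ).2 h1⟩

end Pool.Agent.Lib.MP_52ffb9_lc
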