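import Pool.Agent.Lib.MP_52ffb9_lc.Real

/-! The theory: BASIC, finitely many comprehension axioms, polynomial induction for classes. -/

namespace Pool.Agent.Lib.MP_52ffb9_lc

variable {U : Type}

/-- arithmetic with a membership relation: `false` is the order, `true` is membership -/
def LE : Sig := ⟨AF, Bool, AF.ar, fun _ ↦ 2⟩

def afList : List AF := [.cZ, .cS, .cL, .cH, .cA, .cM, .cP]

theorem mem_afList (f : AF) : f ∈ afList := by cases f <;> simp [afList]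

instance : Finite AF := Finite.of_surjective (fun i : Fin 7 ↦ afList[i]) fun f ↦ by
  obtain ⟨i, hi⟩ := List.get_of_mem (mem_afList f)
  exact ⟨i, hi⟩

instance : Finite LE.F := inferInstanceAs (Finite AF)
instance : Finite LE.R := inferInstanceAs (Finite Bool)

def zE : Tm LE := .app AF.cZ ![]
def oneE : Tm LE := .app AF.cS ![zE]
def hE (t : Tm LE) : Tm LE := .app AF.cH ![t]
def aE (t u : Tm LE) : Tm LE := .app AF.cA ![t, u]
def mE (t u : Tm LE) : Tm LE := .app AF.cM ![t, u]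
def pr (t u : Tm LE) : Tm LE := aE (mE (aE t u) (aE t u)) t
def el (t u : Tm LE) : Fm LE := .rel true ![t, u]

namespace Str

variable (S : Str LE U)

def z : U := S.fn AF.cZ ![]
def one : U := S.fn AF.cS ![S.z]
def hf (a : U) : U := S.fn AF.cH ![a]
def ad (a b : U) : U := S.fn AF.cA ![a, b]
def mu (a b : U) : U := S.fn AF.cM ![a, b]
def pair (a b : U) : U := S.ad (S.mu (S.ad a b) (S.ad a b)) a
def mem (a b : U) : Prop := S.rel true ![a, b]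

end Str

theorem vec0 {α β : Type} (g : α → β) : (fun i ↦ g ((![] : Fin 0 → α) i)) = ![] := by
  funext i; exact i.elim0

theorem vec1 {α β : Type} (g : α → β) (a : α) : (fun i ↦ g (![a] i)) = ![g a] := by
  funext i; fin_cases i; rfl

theorem vec2 {α β : Type} (g : α → β) (a b : α) : (fun i ↦ g (![a, b] i)) = ![g a, g b] := by
  funext i; fin_cases i <;> rfl

namespace Str

variable (S : Str LE U) (ρ : ℕ → U)

@[simp] theorem ev_zE : S.ev ρ zE = S.z := congrArg (S.fn AF.cZ) (vec0 (S.ev ρ))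
@[simp] theorem ev_oneE : S.ev ρ oneE = S.one := by
  have : S.ev ρ oneE = S.fn AF.cS ![S.ev ρ zE] := congrArg (S.fn AF.cS) (vec1 (S.ev ρ) _)
  rw [this, ev_zE]; rfl
@[simp] theorem ev_hE (t : Tm LE) : S.ev ρ (hE t) = S.hf (S.ev ρ t) :=
  congrArg (S.fn AF.cH) (vec1 (S.ev ρ) _)
theorem ev_aE (t u : Tm LE) : S.ev ρ (aE t u) = S.ad (S.ev ρ t) (S.ev ρ u) :=
  congrArg (S.fn AF.cA) (vec2 (S.ev ρ) _ _)
theorem ev_mE (t u : Tm LE) : S.ev ρ (mE t u) = S.mu (S.ev ρ t) (S.ev ρ u) :=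
  congrArg (S.fn AF.cM) (vec2 (S.ev ρ) _ _)
@[simp] theorem ev_pr (t u : Tm LE) : S.ev ρ (pr t u) = S.pair (S.ev ρ t) (S.ev ρ u) := by
  simp only [pr, ev_aE, ev_mE, pair]
@[simp] theorem sat_el (t u : Tm LE) : S.Sat ρ (el t u) ↔ S.mem (S.ev ρ t) (S.ev ρ u) :=
  iff_of_eq (congrArg (S.rel true) (vec2 (S.ev ρ) _ _))

/-- the arithmetical reduct -/
def red : Str LA U := ⟨S.fn, fun _ v ↦ S.rel false v⟩

/-- the structure coded by the class named `0` -/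
def next : Str LE U :=
  ⟨S.fn, fun r v ↦ match r with
    | false => S.rel false v
    | true => S.mem (S.pair (v (0 : Fin 2)) (v (1 : Fin 2))) S.z⟩

theorem ev_next (t : Tm LE) : S.next.ev ρ t = S.ev ρ t := by
  induction t with
  | var i => rfl
  | app f ts ih => simp only [Str.ev, ih]; rfl

end Str

@[simp] theorem bd_var {L : Sig} {n i : ℕ} : (Tm.var i : Tm L).TBd n ↔ i < n := Iff.rfl
@[simp] theorem bd_zE {n : ℕ} : zE.TBd n := fun i ↦ i.elim0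
@[simp] theorem bd_oneE {n : ℕ} : oneE.TBd n := Fin.forall_fin_one.2 bd_zE
@[simp] theorem bd_hE {n : ℕ} {t : Tm LE} : (hE t).TBd n ↔ t.TBd n := Fin.forall_fin_one
@[simp] theorem bd_pr {n : ℕ} {t u : Tm LE} : (pr t u).TBd n ↔ t.TBd n ∧ u.TBd n := by
  have h1 : ∀ t u : Tm LE, (aE t u).TBd n ↔ t.TBd n ∧ u.TBd n := fun _ _ ↦ Fin.forall_fin_two
  have h2 : ∀ t u : Tm LE, (mE t u).TBd n ↔ t.TBd n ∧ u.TBd n := fun _ _ ↦ Fin.forall_fin_two
  simp only [pr, h1, h2]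
  tauto
@[simp] theorem bd_el {n : ℕ} {t u : Tm LE} : (el t u).Bd n ↔ t.TBd n ∧ u.TBd n :=
  Fin.forall_fin_two
@[simp] theorem bd_eq {L : Sig} {n : ℕ} {t u : Tm L} : (Fm.eq t u).Bd n ↔ t.TBd n ∧ u.TBd n :=
  Iff.rfl
@[simp] theorem bd_imp {L : Sig} {n : ℕ} {φ ψ : Fm L} : (φ.imp ψ).Bd n ↔ φ.Bd n ∧ ψ.Bd n :=
  Iff.rfl
@[simp] theorem bd_all {L : Sig} {n : ℕ} {φ : Fm L} : φ.all.Bd n ↔ φ.Bd (n + 1) := Iff.rfl
@[simp] theorem bd_bot {L : Sig} {n : ℕ} : (Fm.bot : Fm L).Bd n := trivial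

theorem cx_el {a b : ℕ} {t u : Tm LE} : (el t u).Cx (a + 1) (b + 1) := cx_rel

/-- the identical translation of arithmetic -/
def N0 : Transl LA LE :=
  ⟨Fm.bot.neg, .eq (.var 0) (.var 1), fun f ↦ .eq (.var 0) (.app f fun i ↦ .var (i + 1)),
    fun _ ↦ .rel false fun i ↦ .var i⟩

theorem N0_real (S : Str LE U) : N0.Real S S.red :=
  ⟨fun _ ↦ id, fun _ ↦ Iff.rfl, fun _ _ ↦ Iff.rfl, fun _ _ ↦ Iff.rfl⟩

theorem N0_wf : N0.WF :=
  ⟨by simp [N0], by simp [N0], fun f ↦ ⟨Nat.succ_pos _, fun i ↦ Nat.succ_lt_succ i.2⟩,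
    fun _ i ↦ i.2⟩

/-- the relations of the coded structure -/
def hrel : Bool → Fm LE
  | false => .rel false fun i ↦ .var i
  | true => el (pr (.var 0) (.var 1)) zE

theorem sat_hrel (S : Str LE U) (ρ : ℕ → U) (r : Bool) :
    S.Sat ρ (hrel r) ↔ S.next.rel r ![ρ 0, ρ 1] := by
  cases r with
  | false =>
    refine iff_of_eq (congrArg (S.rel false) ?_)
    funext i
    fin_cases i <;> rfl
  | true => simp only [hrel, Str.sat_el, Str.ev_pr, Str.ev_zE, Str.ev_var]; rfl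

theorem bd_hrel (r : Bool) : (hrel r).Bd 2 := by
  cases r with
  | false => exact fun i ↦ i.2
  | true => simp [hrel]

theorem cx_hrel (r : Bool) {a b : ℕ} : (hrel r).Cx (a + 1) (b + 1) := by
  cases r with
  | false => exact cx_rel
  | true => exact cx_el

/-! ### the clauses -/

def cBot (e : ℕ) : Fm LE := (el (.var 0) (.var (e + 1))).neg.all
def cImp (e p q : ℕ) : Fm LE := ((el (.var 0) (.var (e + 1))).iff
  ((el (.var 0) (.var (p + 1))).imp (el (.var 0) (.var (q + 1))))).all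
def cAll (e p : ℕ) : Fm LE := ((el (.var 0) (.var (e + 1))).iff
  (el (pr (.var 0) (.var 1)) (.var (p + 2))).all).all
def cVar (e : ℕ) : Fm LE := ((el (.var 0) (.var (e + 1))).iff
  (Fm.eq (.var 2) (pr (.var 0) (pr (.var 0) (.var 1)))).ex.ex).all
def cShift (e p : ℕ) : Fm LE := ((el (.var 0) (.var (e + 1))).iff
  ((Fm.eq (.var 3) (pr (.var 0) (pr (.var 1) (.var 2)))).and
    (el (pr (.var 0) (.var 2)) (.var (p + 4)))).ex.ex.ex).all
def cFn (f : AF) (e : ℕ) (p : ℕ → ℕ) : Fm LE := ((el (.var 0) (.var (e + 1))).iff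
  (Fm.ex^[f.ar] ((Fm.eq (.var (1 + f.ar)) (pr (.app (L := LE) f fun i ↦ .var i) (.var f.ar))).and
    (conj (List.ofFn fun i : Fin f.ar ↦
      el (pr (.var i) (.var f.ar)) (.var (p i + 2 + f.ar)))))).ex).all
def cRel (θ : Fm LE) (e p q : ℕ) : Fm LE := ((el (.var 0) (.var (e + 1))).iff
  (θ.and ((el (pr (.var 0) (.var 2)) (.var (p + 3))).and
    (el (pr (.var 1) (.var 2)) (.var (q + 3))))).ex.ex).all

section sat
variable (S : Str LE U) (ρ : ℕ → U)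

theorem sat_cBot (e : ℕ) : S.Sat ρ (cBot e) ↔ ∀ s, ¬ S.mem s (ρ e) := by simp [cBot]

theorem sat_cImp (e p q : ℕ) : S.Sat ρ (cImp e p q) ↔
    ∀ s, S.mem s (ρ e) ↔ (S.mem s (ρ p) → S.mem s (ρ q)) := by simp [cImp]

theorem sat_cAll (e p : ℕ) : S.Sat ρ (cAll e p) ↔
    ∀ s, S.mem s (ρ e) ↔ ∀ x, S.mem (S.pair x s) (ρ p) := by simp [cAll, cons]

theorem sat_cVar (e : ℕ) : S.Sat ρ (cVar e) ↔
    ∀ s, S.mem s (ρ e) ↔ ∃ t y, s = S.pair y (S.pair y t) := by simp [cVar, cons]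

theorem sat_cShift (e p : ℕ) : S.Sat ρ (cShift e p) ↔ ∀ s, S.mem s (ρ e) ↔
    ∃ t w y, s = S.pair y (S.pair w t) ∧ S.mem (S.pair y t) (ρ p) := by simp [cShift, cons]

theorem sat_cFn (f : AF) (e : ℕ) (p : ℕ → ℕ) : S.Sat ρ (cFn f e p) ↔ ∀ s, S.mem s (ρ e) ↔
    ∃ t, ∃ v : Fin f.ar → U, s = S.pair (S.fn f v) t ∧
      ∀ i, S.mem (S.pair (v i) t) (ρ (p i)) := by
  have e1 : ∀ (v : Fin f.ar → U) (ρ' : ℕ → U),
      S.ev (app v ρ') (.app (L := LE) f fun i ↦ .var i) = S.fn f v := fun v ρ' ↦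
    congrArg (S.fn f) (funext fun i ↦ app_fin v ρ' i)
  simp only [cFn, Str.sat_all, Str.sat_iff, Str.sat_el, Str.sat_ex, Str.sat_exN, Str.sat_and,
    Str.sat_eq, Str.sat_conj_ofFn, Str.ev_pr, Str.ev_var, e1, app_add, app_self, app_fin,
    cons_zero, cons_succ]

theorem sat_cRel (θ : Fm LE) (e p q : ℕ) : S.Sat ρ (cRel θ e p q) ↔ ∀ s, S.mem s (ρ e) ↔
    ∃ b a, S.Sat (cons a (cons b (cons s ρ))) θ ∧ S.mem (S.pair a s) (ρ p) ∧
      S.mem (S.pair b s) (ρ q) := by simp [cRel, cons]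

end sat

theorem cx_cBot (e : ℕ) : (cBot e).Cx 3 4 := (cx_el (a := 0) (b := 0)).neg.all.mono (by omega) (by omega)

theorem cx_clause {φ : Fm LE} (e : ℕ) (h : φ.Cx 2 2) :
    ((el (.var 0) (.var e)).iff φ).all.Cx 3 4 := (cx_el.iff h).all.mono le_rfl (by omega)

theorem cx_cImp (e p q : ℕ) : (cImp e p q).Cx 3 4 := cx_clause _ (cx_el.imp cx_el)

theorem cx_cAll (e p : ℕ) : (cAll e p).Cx 3 4 :=
  cx_clause _ ((cx_el (a := 0) (b := 0)).all.mono le_rfl (by omega))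

theorem cx_cVar (e : ℕ) : (cVar e).Cx 3 4 :=
  cx_clause _ ((cx_eq (a := 0) (b := 0)).ex.ex.mono (by omega) le_rfl)

theorem cx_cShift (e p : ℕ) : (cShift e p).Cx 3 4 :=
  cx_clause _ (((cx_eq (a := 0) (b := 0)).and cx_el).ex.ex.ex.mono (by omega) le_rfl)

theorem cx_cFn (f : AF) (e : ℕ) (p : ℕ → ℕ) : (cFn f e p).Cx 3 4 :=
  cx_clause _ ((((cx_eq (a := 0) (b := 1)).and (cx_conj (by
    simp only [List.forall_mem_ofFn_iff]
    exact fun _ ↦ cx_el))).exN _).ex.mono (by omega) le_rfl)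

theorem cx_cRel {θ : Fm LE} (h : θ.Cx 1 1) (e p q : ℕ) : (cRel θ e p q).Cx 3 4 :=
  cx_clause _ ((Fm.Cx.and (a := 0) (b := 0) h (cx_el.and cx_el)).ex.ex.mono (by omega) le_rfl)

theorem bd_cFn (f : AF) {e n : ℕ} {p : ℕ → ℕ} (he : e < n) (hp : ∀ i < f.ar, p i < n) :
    (cFn f e p).Bd n := by
  simp only [cFn, bd_all, bd_iff, bd_el, bd_ex, bd_exN, bd_and, bd_eq, bd_conj, bd_pr, bd_var,
    List.forall_mem_ofFn_iff]
  refine ⟨by omega, ⟨by omega, fun i ↦ ?_, by omega⟩, fun i ↦ ?_⟩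
  · have : (i : ℕ) < f.ar := i.2
    exact (by omega : (i : ℕ) < n + 1 + 1 + f.ar)
  · have := hp i i.2
    omega

theorem bd_cRel {θ : Fm LE} (h : θ.Bd 2) {e p q n : ℕ} (he : e < n) (hp : p < n) (hq : q < n) :
    (cRel θ e p q).Bd n := by
  simp only [cRel, bd_all, bd_iff, bd_el, bd_ex, bd_and, bd_pr, bd_var]
  exact ⟨by omega, h.mono (by omega), by omega⟩

/-! ### the axioms -/

def basicL : List (Fm LA) :=
  basic1 (.var 0) (.var 1) (.var 2) ++ basic2 (.var 0) (.var 1) (.var 2) (.var 3)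

theorem bd_basicL : ∀ β ∈ basicL, β.Bd 4 := by
  have h0 : zero.TBd 4 := fun i ↦ i.elim0
  have h1 : ∀ t, (succ t).TBd 4 ↔ t.TBd 4 := fun _ ↦ Fin.forall_fin_one
  have h2 : ∀ t, (len t).TBd 4 ↔ t.TBd 4 := fun _ ↦ Fin.forall_fin_one
  have h3 : ∀ t, (half t).TBd 4 ↔ t.TBd 4 := fun _ ↦ Fin.forall_fin_one
  have h4 : ∀ t u, (add t u).TBd 4 ↔ t.TBd 4 ∧ u.TBd 4 := fun _ _ ↦ Fin.forall_fin_two
  have h5 : ∀ t u, (mul t u).TBd 4 ↔ t.TBd 4 ∧ u.TBd 4 := fun _ _ ↦ Fin.forall_fin_two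
  have h6 : ∀ t u, (smash t u).TBd 4 ↔ t.TBd 4 ∧ u.TBd 4 := fun _ _ ↦ Fin.forall_fin_two
  have h7 : ∀ t u, (le t u).Bd 4 ↔ t.TBd 4 ∧ u.TBd 4 := fun _ _ ↦ Fin.forall_fin_two
  simp [basicL, basic1, basic2, ne, dbl, num, h0, h1, h2, h3, h4, h5, h6, h7]

def axInj : Fm LE := ((Fm.eq (pr (.var 0) (.var 1)) (pr (.var 2) (.var 3))).imp
  ((Fm.eq (.var 0) (.var 2)).and (.eq (.var 1) (.var 3)))).all.all.all.all

def axAdj : Fm LE := ((el (.var 0) (.var 1)).iff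
  ((el (.var 0) (.var 3)).or (.eq (.var 0) (.var 2)))).all.ex.all.all

def axInd : Fm LE := ((el (pr zE (.var 0)) (.var 1)).imp
  (((el (pr (hE (.var 0)) (.var 1)) (.var 2)).imp (el (pr (.var 0) (.var 1)) (.var 2))).all.imp
    (el (pr (.var 0) (.var 1)) (.var 2)).all)).all.all

def axList : List (Fm LE) :=
  basicL.map (fun β ↦ N0.fm (Fm.all^[4] β)) ++
    afList.map (fun f ↦ Fm.all^[f.ar] (cFn f 0 (· + 1)).ex) ++
    [axInj, axAdj, axInd, (cBot 0).ex, (cImp 0 1 2).ex.all.all, (cAll 0 1).ex.all, (cVar 0).ex,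
      (cShift 0 1).ex.all, (cRel (.eq (.var 0) (.var 1)) 0 1 2).ex.all.all,
      (cRel (hrel false) 0 1 2).ex.all.all, (cRel (hrel true) 0 1 2).ex.all.all]

/-- the theory -/
def TA : Set (Fm LE) := {φ | φ ∈ axList}

theorem bd_axList : ∀ φ ∈ axList, φ.Bd 0 := by
  simp only [axList, List.mem_append, List.mem_map]
  rintro φ ((⟨β, hβ, rfl⟩ | ⟨f, -, rfl⟩) | h)
  · exact N0_wf.fm ((bd_allN 4).2 (bd_basicL β hβ))
  · rw [bd_allN, bd_ex]
    exact bd_cFn f (by omega) fun i hi ↦ by omega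
  · simp only [List.mem_cons, List.not_mem_nil, or_false] at h
    rcases h with rfl | rfl | rfl | rfl | rfl | rfl | rfl | rfl | rfl | rfl | rfl
    · simp [axInj]
    · simp [axAdj]
    · simp [axInd]
    · simp [cBot]
    · simp [cImp]
    · simp [cAll]
    · simp [cVar]
    · simp [cShift]
    · simp only [bd_all, bd_ex]; exact bd_cRel (by simp) (by omega) (by omega) (by omega)
    · simp only [bd_all, bd_ex]; exact bd_cRel (bd_hrel _) (by omega) (by omega) (by omega)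
    · simp only [bd_all, bd_ex]; exact bd_cRel (bd_hrel _) (by omega) (by omega) (by omega)

/-- the content of the axioms -/
structure Good (S : Str LE U) : Prop where
  basic : ∀ β ∈ basicL, ∀ ρ, S.red.Sat ρ β
  fn : ∀ (f : AF) (p : Fin f.ar → U), ∃ e, ∀ s, S.mem s e ↔
    ∃ t, ∃ v : Fin f.ar → U, s = S.pair (S.fn f v) t ∧ ∀ i, S.mem (S.pair (v i) t) (p i)
  inj : ∀ a b c d, S.pair a b = S.pair c d → a = c ∧ b = d
  adj : ∀ u v, ∃ e, ∀ s, S.mem s e ↔ S.mem s u ∨ s = v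
  ind : ∀ e s, S.mem (S.pair S.z s) e →
    (∀ x, S.mem (S.pair (S.hf x) s) e → S.mem (S.pair x s) e) → ∀ x, S.mem (S.pair x s) e
  bot : ∃ e, ∀ s, ¬ S.mem s e
  imp : ∀ q p, ∃ e, ∀ s, S.mem s e ↔ (S.mem s p → S.mem s q)
  all : ∀ p, ∃ e, ∀ s, S.mem s e ↔ ∀ x, S.mem (S.pair x s) p
  var : ∃ e, ∀ s, S.mem s e ↔ ∃ t y, s = S.pair y (S.pair y t)
  shift : ∀ p, ∃ e, ∀ s, S.mem s e ↔ ∃ t w y, s = S.pair y (S.pair w t) ∧ S.mem (S.pair y t) p
  eq : ∀ q p, ∃ e, ∀ s, S.mem s e ↔ ∃ b a, a = b ∧ S.mem (S.pair a s) p ∧ S.mem (S.pair b s) q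
  rel : ∀ r q p, ∃ e, ∀ s, S.mem s e ↔
    ∃ b a, S.next.rel r ![a, b] ∧ S.mem (S.pair a s) p ∧ S.mem (S.pair b s) q

theorem sat_of_closure {L : Sig} (S : Str L U) {φ : Fm L} {n : ℕ} (h : φ.Bd n) {ρ : ℕ → U}
    (h1 : S.Sat ρ (Fm.all^[n] φ)) (ρ' : ℕ → U) : S.Sat ρ' φ := by
  rw [S.sat_allN] at h1
  exact (S.sat_congr h fun i hi ↦ by simp [app, hi]).1 (h1 fun i ↦ ρ' i)

theorem good_iff (S : Str LE U) (ρ : ℕ → U) : (∀ φ ∈ TA, S.Sat ρ φ) ↔ Good S := by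
  have e1 : (∀ β ∈ basicL, S.Sat ρ (N0.fm (Fm.all^[4] β))) ↔ ∀ β ∈ basicL, ∀ ρ, S.red.Sat ρ β := by
    refine forall₂_congr fun β hβ ↦ ?_
    rw [(N0_real S).fm]
    exact ⟨sat_of_closure _ (bd_basicL β hβ), fun h ↦ (S.red.sat_allN _ _ _).2 fun _ ↦ h _⟩
  have e2 : (∀ f ∈ afList, S.Sat ρ (Fm.all^[f.ar] (cFn f 0 (· + 1)).ex)) ↔
      ∀ (f : AF) (p : Fin f.ar → U), ∃ e, ∀ s, S.mem s e ↔
        ∃ t, ∃ v : Fin f.ar → U, s = S.pair (S.fn f v) t ∧ ∀ i, S.mem (S.pair (v i) t) (p i) := by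
    simp only [mem_afList, true_imp_iff, Str.sat_allN, Str.sat_ex, sat_cFn, cons_zero, cons_succ,
      app_fin]
  simp only [TA, Set.mem_ofPred_eq, axList, List.forall_mem_append, List.forall_mem_map, e1, e2,
    List.forall_mem_cons, List.not_mem_nil, false_imp_iff, implies_true, and_true, Str.sat_all,
    Str.sat_ex, sat_cBot, sat_cImp, sat_cAll, sat_cVar, sat_cShift, sat_cRel, sat_hrel, axInj, axAdj,
    axInd, Str.sat_imp, Str.sat_and, Str.sat_iff, Str.sat_or, Str.sat_eq, Str.sat_el, Str.ev_pr,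
    Str.ev_var, Str.ev_zE, Str.ev_hE, cons]
  constructor
  · rintro ⟨⟨h1, h2⟩, h3, h4, h5, h6, h7, h8, h9, h10, h11, h12, h13⟩
    exact ⟨h1, h2, fun a b c d ↦ h3 d c b a, h4, h5, h6, h7, h8, h9, h10, h11, fun r ↦ by
      cases r
      exacts [h12, h13]⟩
  · intro h
    exact ⟨⟨h.basic, h.fn⟩, fun d c b a ↦ h.inj a b c d, h.adj, h.ind, h.bot, h.imp, h.all, h.var,
      h.shift, h.eq, h.rel false, h.rel true⟩

end Pool.Agent.Lib.MP_52ffb9_lc
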